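import Mathlib

/-!
# Large diagonals in powers of the set of permutations of three letters

`Tri m` is the set of triples `(x, y, z)` of words of length `m` over three letters such that
`x t, y t, z t` are distinct at every place `t`.  A hashing argument (Coppersmith-Winograd,
Strassen) with a set without three-term progressions (Behrend) gives a subset of
`3 ^ (m (1 - o(1)))` triples such that no mixed triple belongs to the set.
-/

set_option autoImplicit false

namespace Pool.Agent.TH140.KT

open Finset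

abbrev Tri (m : ℕ) := Fin m → Equiv.Perm (Fin 3)

/-- the words of a triple -/
def co {m : ℕ} (j : Fin 3) (s : Tri m) : Fin m → Fin 3 := fun t => s t j

lemma perm_sum (σ : Equiv.Perm (Fin 3)) : (σ 0 : ℕ) + (σ 1 : ℕ) + (σ 2 : ℕ) = 3 := by
  revert σ; decide

lemma perm_ext (σ τ : Equiv.Perm (Fin 3)) (h0 : σ 0 = τ 0) (h1 : σ 1 = τ 1) : σ = τ := by
  revert σ τ; decide

lemma perm_card (j a : Fin 3) :
    (univ.filter (fun σ : Equiv.Perm (Fin 3) => σ j = a)).card = 2 := by
  revert j a; decide

lemma exists_perm (a b c : Fin 3) (h1 : a ≠ b) (h2 : a ≠ c) (h3 : b ≠ c) :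
    ∃ σ : Equiv.Perm (Fin 3), σ 0 = a ∧ σ 1 = b ∧ σ 2 = c := by
  revert a b c; decide

lemma card_share {m : ℕ} (j : Fin 3) (s : Tri m) :
    (univ.filter (fun s' : Tri m => co j s' = co j s)).card = 2 ^ m := by
  have h : (univ.filter (fun s' : Tri m => co j s' = co j s)) =
      Fintype.piFinset (fun t => univ.filter (fun σ : Equiv.Perm (Fin 3) => σ j = s t j)) := by
    ext s'
    simp only [mem_filter, mem_univ, true_and, Fintype.mem_piFinset]
    constructor
    · intro h t
      exact congrFun h t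
    · intro h
      exact funext h
  rw [h, Fintype.card_piFinset]
  simp only [perm_card]
  simp

section hash

variable {m M : ℕ} [NeZero M]

/-- linear form -/
def lf (w : Fin m → ZMod M) (x : Fin m → Fin 3) : ZMod M := ∑ t, w t * ((x t : ℕ) : ZMod M)


lemma lf_sum (w : Fin m → ZMod M) (s : Tri m) :
    lf w (co 0 s) + lf w (co 1 s) + lf w (co 2 s) = 3 * ∑ t, w t := by
  unfold lf co
  rw [← Finset.sum_add_distrib, ← Finset.sum_add_distrib, Finset.mul_sum]
  refine Finset.sum_congr rfl fun t _ => ?_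
  have h := congrArg (Nat.cast (R := ZMod M)) (perm_sum (s t))
  push_cast at h
  linear_combination w t * h

lemma unit_sub (hM : Odd M) {a b : Fin 3} (h : a ≠ b) :
    IsUnit (((a : ℕ) : ZMod M) - ((b : ℕ) : ZMod M)) := by
  have h2 : IsUnit ((2 : ℕ) : ZMod M) := by
    rw [ZMod.isUnit_iff_coprime]
    exact (Nat.coprime_two_left).2 hM
  have h1 : IsUnit ((1 : ZMod M)) := isUnit_one
  fin_cases a <;> fin_cases b
  · exact absurd rfl h
  · simp
  · simpa using h2.neg
  · simp
  · exact absurd rfl h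
  · have h3 : IsUnit ((1 : ZMod M) - 2) := by
      have : (1 : ZMod M) - 2 = -1 := by ring
      rw [this]
      exact h1.neg
    simpa using h3
  · simpa using h2
  · have : (((2 : ℕ) : ZMod M) - ((1 : ℕ) : ZMod M)) = 1 := by push_cast; ring
    have h3 : IsUnit (((2 : ℕ) : ZMod M) - ((1 : ℕ) : ZMod M)) := by rw [this]; exact h1
    simpa using h3
  · exact absurd rfl h

/-- Few weights identify two different words. -/
lemma card_zero (hM : Odd M) {x x' : Fin m → Fin 3} (h : x ≠ x') :
    M * (univ.filter (fun w : Fin m → ZMod M => lf w x = lf w x')).card ≤ M ^ m := by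
  classical
  obtain ⟨t0, ht0⟩ : ∃ t, x t ≠ x' t := by
    by_contra hc
    push Not at hc
    exact h (funext hc)
  obtain ⟨d, hd⟩ := unit_sub (M := M) hM ht0
  set Z := univ.filter (fun w : Fin m → ZMod M => lf w x = lf w x') with hZ
  have hlf : ∀ (w : Fin m → ZMod M) (a : ZMod M),
      lf (Function.update w t0 (w t0 + a)) x - lf (Function.update w t0 (w t0 + a)) x' =
        (lf w x - lf w x') + a * (d : ZMod M) := by
    intro w a
    unfold lf
    rw [← Finset.sum_sub_distrib, ← Finset.sum_sub_distrib,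
      ← Finset.add_sum_erase _ _ (mem_univ t0),
      ← Finset.add_sum_erase _ (fun t => w t * ((x t : ℕ) : ZMod M) - w t * ((x' t : ℕ) : ZMod M))
        (mem_univ t0)]
    rw [Finset.sum_congr rfl (g := fun t => w t * ((x t : ℕ) : ZMod M) -
      w t * ((x' t : ℕ) : ZMod M))]
    · rw [Function.update_self, hd]
      ring
    · intro t ht
      rw [Function.update_of_ne (Finset.ne_of_mem_erase ht)]
  have hinj : Set.InjOn (fun q : (Fin m → ZMod M) × ZMod M =>
      Function.update q.1 t0 (q.1 t0 + q.2)) ↑(Z ×ˢ (univ : Finset (ZMod M))) := by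
    rintro ⟨w, a⟩ hw ⟨w', a'⟩ hw' he
    simp only [coe_product, coe_univ, Set.mem_prod, mem_coe, Set.mem_univ, and_true, hZ,
      mem_filter, mem_univ, true_and] at hw hw'
    simp only at he
    have h1 := hlf w a
    have h2 := hlf w' a'
    rw [he, h2, hw, hw', sub_self, sub_self, zero_add, zero_add] at h1
    have ha : a' = a := by
      have := congrArg (· * (↑d⁻¹ : ZMod M)) h1
      simpa [mul_assoc] using this
    subst ha
    have hww : w = w' := by
      funext t
      by_cases ht : t = t0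
      · subst ht
        have := congrFun he t
        rw [Function.update_self, Function.update_self] at this
        exact add_right_cancel this
      · have := congrFun he t
        rwa [Function.update_of_ne ht, Function.update_of_ne ht] at this
    rw [hww]
  have hc := Finset.card_le_card_of_injOn (t := (univ : Finset (Fin m → ZMod M))) _
    (fun q _ => mem_univ _) hinj
  rw [Finset.card_product, Finset.card_univ, Finset.card_univ, ZMod.card, Fintype.card_fun,
    ZMod.card, Fintype.card_fin] at hc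
  rw [mul_comm]
  exact hc

/-- the triples selected by the weights `q = (w, u, v)` and the set `B` -/
def Sel (B : Finset (ZMod M)) (q : (Fin m → ZMod M) × ZMod M × ZMod M) (s : Tri m) : Prop :=
  q.2.1 + lf q.1 (co 0 s) ∈ B ∧ q.2.2 + lf q.1 (co 1 s) = q.2.1 + lf q.1 (co 0 s) ∧
    ∀ s' : Tri m, s' ≠ s → q.2.1 + lf q.1 (co 0 s') = q.2.1 + lf q.1 (co 0 s) →
      q.2.2 + lf q.1 (co 1 s') = q.2.1 + lf q.1 (co 0 s) → ∀ j, co j s' ≠ co j s

/-- Each triple is selected by many weights. -/
lemma card_sel (hM : Odd M) (hM6 : 6 * 2 ^ m ≤ M) (B : Finset (ZMod M)) (s : Tri m)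
    [DecidablePred (fun q => Sel B q s)] :
    B.card * M ^ m ≤ 2 * (univ.filter (fun q => Sel B q s)).card := by
  classical
  set Sh : Finset (Tri m) := univ.filter (fun s' => s' ≠ s ∧ ∃ j, co j s' = co j s) with hSh
  have hShc : Sh.card ≤ 3 * 2 ^ m := by
    have h1 : Sh ⊆ (univ : Finset (Fin 3)).biUnion
        (fun j => univ.filter (fun s' : Tri m => co j s' = co j s)) := by
      intro s' hs'
      simp only [hSh, mem_filter, mem_univ, true_and] at hs'
      obtain ⟨-, j, hj⟩ := hs'
      simp only [mem_biUnion, mem_univ, true_and, mem_filter]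
      exact ⟨j, hj⟩
    refine (Finset.card_le_card h1).trans (Finset.card_biUnion_le.trans ?_)
    simp only [card_share, sum_const, card_univ, Fintype.card_fin, smul_eq_mul, le_refl]
  -- the bad weights
  set Bad : Finset (Fin m → ZMod M) := Sh.biUnion (fun s' => univ.filter
    (fun w => lf w (co 0 s') = lf w (co 0 s) ∧ lf w (co 1 s') = lf w (co 1 s))) with hBad
  have hZ : ∀ s' ∈ Sh, M * (univ.filter (fun w : Fin m → ZMod M =>
      lf w (co 0 s') = lf w (co 0 s) ∧ lf w (co 1 s') = lf w (co 1 s))).card ≤ M ^ m := by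
    intro s' hs'
    simp only [hSh, mem_filter, mem_univ, true_and] at hs'
    have hne := hs'.1
    by_cases h0 : co 0 s' = co 0 s
    · have h1 : co 1 s' ≠ co 1 s := by
        intro h1
        apply hne
        funext t
        exact perm_ext _ _ (congrFun h0 t) (congrFun h1 t)
      refine (Nat.mul_le_mul_left M (Finset.card_le_card ?_)).trans (card_zero hM h1)
      intro w hw
      simp only [mem_filter, mem_univ, true_and] at hw ⊢
      exact hw.2
    · refine (Nat.mul_le_mul_left M (Finset.card_le_card ?_)).trans (card_zero hM h0)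
      intro w hw
      simp only [mem_filter, mem_univ, true_and] at hw ⊢
      exact hw.1
  have hBadc : M * Bad.card ≤ 3 * 2 ^ m * M ^ m := by
    calc M * Bad.card ≤ M * ∑ s' ∈ Sh, (univ.filter (fun w : Fin m → ZMod M =>
          lf w (co 0 s') = lf w (co 0 s) ∧ lf w (co 1 s') = lf w (co 1 s))).card :=
          Nat.mul_le_mul_left _ Finset.card_biUnion_le
      _ = ∑ s' ∈ Sh, M * (univ.filter (fun w : Fin m → ZMod M =>
          lf w (co 0 s') = lf w (co 0 s) ∧ lf w (co 1 s') = lf w (co 1 s))).card := by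
          rw [Finset.mul_sum]
      _ ≤ ∑ s' ∈ Sh, M ^ m := Finset.sum_le_sum hZ
      _ = Sh.card * M ^ m := by rw [sum_const, smul_eq_mul]
      _ ≤ 3 * 2 ^ m * M ^ m := Nat.mul_le_mul_right _ hShc
  have hMpos : 0 < M := Nat.pos_of_ne_zero (NeZero.ne M)
  have hBad2 : 2 * Bad.card ≤ M ^ m := by
    have h1 : M * (2 * Bad.card) ≤ M * M ^ m := by
      calc M * (2 * Bad.card) = 2 * (M * Bad.card) := by ring
        _ ≤ 2 * (3 * 2 ^ m * M ^ m) := Nat.mul_le_mul_left _ hBadc
        _ = (6 * 2 ^ m) * M ^ m := by ring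
        _ ≤ M * M ^ m := Nat.mul_le_mul_right _ hM6
    exact Nat.le_of_mul_le_mul_left h1 hMpos
  have hgood : M ^ m ≤ 2 * (Badᶜ).card := by
    have h1 : Bad.card + (Badᶜ).card = M ^ m := by
      rw [Finset.card_add_card_compl, Fintype.card_fun, ZMod.card, Fintype.card_fin]
    omega
  -- injection
  have hinj : Set.InjOn (fun r : ZMod M × (Fin m → ZMod M) =>
      ((r.2, r.1 - lf r.2 (co 0 s), r.1 - lf r.2 (co 1 s)) :
        (Fin m → ZMod M) × ZMod M × ZMod M)) ↑(B ×ˢ Badᶜ) := by
    rintro ⟨b, w⟩ _ ⟨b', w'⟩ _ he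
    simp only [Prod.mk.injEq] at he
    obtain ⟨rfl, h1, -⟩ := he
    rw [sub_left_inj.1 h1]
  have hmaps : ∀ r ∈ B ×ˢ Badᶜ, (fun r : ZMod M × (Fin m → ZMod M) =>
      ((r.2, r.1 - lf r.2 (co 0 s), r.1 - lf r.2 (co 1 s)) :
        (Fin m → ZMod M) × ZMod M × ZMod M)) r ∈ univ.filter (fun q => Sel B q s) := by
    rintro ⟨b, w⟩ hr
    rw [mem_product, mem_compl] at hr
    simp only [mem_filter, mem_univ, true_and]
    refine ⟨?_, ?_, ?_⟩
    · simpa using hr.1
    · simp
    · intro s' hne h0 h1 j hj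
      apply hr.2
      simp only [hBad, mem_biUnion, hSh, mem_filter, mem_univ, true_and]
      refine ⟨s', ⟨hne, j, hj⟩, ?_, ?_⟩
      · simp only [sub_add_cancel] at h0
        linear_combination h0
      · simp only [sub_add_cancel] at h1
        linear_combination h1
  have hcard := Finset.card_le_card_of_injOn _ hmaps hinj
  rw [Finset.card_product] at hcard
  calc B.card * M ^ m ≤ B.card * (2 * (Badᶜ).card) := Nat.mul_le_mul_left _ hgood
    _ = 2 * (B.card * (Badᶜ).card) := by ring
    _ ≤ _ := Nat.mul_le_mul_left _ hcard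

/-- The selected triples form a diagonal. -/
lemma sel_diag {B : Finset (ZMod M)}
    (hB : ∀ a ∈ B, ∀ b ∈ B, ∀ c ∈ B, a + b = 2 * c → a = b ∧ b = c)
    (q : (Fin m → ZMod M) × ZMod M × ZMod M) {i j k : Tri m} (hi : Sel B q i) (hj : Sel B q j)
    (hk : Sel B q k) (h : ∀ t, co 0 i t ≠ co 1 j t ∧ co 0 i t ≠ co 2 k t ∧ co 1 j t ≠ co 2 k t) :
    i = j ∧ j = k := by
  choose s hs0 hs1 hs2 using fun t => exists_perm _ _ _ (h t).1 (h t).2.1 (h t).2.2
  have e0 : co 0 s = co 0 i := funext hs0
  have e1 : co 1 s = co 1 j := funext hs1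
  have e2 : co 2 s = co 2 k := funext hs2
  obtain ⟨i1, i2, i3⟩ := hi
  obtain ⟨j1, j2, j3⟩ := hj
  obtain ⟨k1, k2, k3⟩ := hk
  have q1 := lf_sum q.1 s
  have q2 := lf_sum q.1 k
  rw [e2] at q1
  have hsum : (q.2.1 + lf q.1 (co 0 i)) + (q.2.1 + lf q.1 (co 0 j)) =
      2 * (q.2.1 + lf q.1 (co 0 k)) := by
    rw [← j2, ← e0, ← e1]
    linear_combination q1 - q2 + k2
  obtain ⟨h1, h2⟩ := hB _ i1 _ j1 _ k1 hsum
  -- `s` has the same value
  have s0 : q.2.1 + lf q.1 (co 0 s) = q.2.1 + lf q.1 (co 0 i) := by rw [e0]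
  have s1 : q.2.2 + lf q.1 (co 1 s) = q.2.1 + lf q.1 (co 0 i) := by rw [e1, j2, h1]
  have hsi : s = i := by
    by_contra hne
    exact i3 s hne s0 s1 0 e0
  have hsj : s = j := by
    by_contra hne
    exact j3 s hne (s0.trans h1) (s1.trans h1) 1 e1
  have hsk : s = k := by
    by_contra hne
    exact k3 s hne (s0.trans (h1.trans h2)) (s1.trans (h1.trans h2)) 2 e2
  exact ⟨hsi.symm.trans hsj, hsj.symm.trans hsk⟩

/-- Some weights select many triples. -/
lemma exists_sel (hM : Odd M) (hM6 : 6 * 2 ^ m ≤ M) (B : Finset (ZMod M)) :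
    ∃ q : (Fin m → ZMod M) × ZMod M × ZMod M, ∃ K : Finset (Tri m), (∀ s ∈ K, Sel B q s) ∧
      6 ^ m * B.card ≤ 2 * M ^ 2 * K.card := by
  classical
  have hsum : 6 ^ m * (B.card * M ^ m) ≤
      2 * ∑ q : (Fin m → ZMod M) × ZMod M × ZMod M, (univ.filter (fun s => Sel B q s)).card := by
    have h1 : ∑ q : (Fin m → ZMod M) × ZMod M × ZMod M, (univ.filter (fun s => Sel B q s)).card =
        ∑ s : Tri m, (univ.filter (fun q => Sel B q s)).card := by
      simp only [Finset.card_filter]
      exact Finset.sum_comm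
    rw [h1, Finset.mul_sum]
    calc 6 ^ m * (B.card * M ^ m) = ∑ s : Tri m, B.card * M ^ m := by
          rw [sum_const, card_univ, smul_eq_mul, Fintype.card_fun, Fintype.card_fin,
            Fintype.card_perm, Fintype.card_fin]
          rfl
      _ ≤ _ := Finset.sum_le_sum fun s _ => card_sel hM hM6 B s
  by_contra hc
  push Not at hc
  have hlt : ∀ q : (Fin m → ZMod M) × ZMod M × ZMod M,
      2 * M ^ 2 * (univ.filter (fun s => Sel B q s)).card < 6 ^ m * B.card := fun q =>
    hc q _ fun s hs => (mem_filter.1 hs).2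
  have hMpos : 0 < M := Nat.pos_of_ne_zero (NeZero.ne M)
  have h2 : ∑ q : (Fin m → ZMod M) × ZMod M × ZMod M,
      2 * M ^ 2 * (univ.filter (fun s => Sel B q s)).card <
      ∑ _q : (Fin m → ZMod M) × ZMod M × ZMod M, 6 ^ m * B.card :=
    Finset.sum_lt_sum_of_nonempty univ_nonempty fun q _ => hlt q
  rw [← Finset.mul_sum, sum_const, card_univ, smul_eq_mul, Fintype.card_prod, Fintype.card_prod,
    Fintype.card_fun, ZMod.card, Fintype.card_fin] at h2
  have h3 : M ^ 2 * (6 ^ m * (B.card * M ^ m)) ≤ M ^ 2 * (2 *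
      ∑ q : (Fin m → ZMod M) × ZMod M × ZMod M, (univ.filter (fun s => Sel B q s)).card) :=
    Nat.mul_le_mul_left _ hsum
  have h4 : M ^ 2 * (6 ^ m * (B.card * M ^ m)) = M ^ m * (M * M) * (6 ^ m * B.card) := by ring
  have h5 : M ^ 2 * (2 *
      ∑ q : (Fin m → ZMod M) × ZMod M × ZMod M, (univ.filter (fun s => Sel B q s)).card) =
      2 * M ^ 2 *
      ∑ q : (Fin m → ZMod M) × ZMod M × ZMod M, (univ.filter (fun s => Sel B q s)).card := by ring
  omega

end hash

end Pool.Agent.TH140.KT
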