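import Mathlib
import Pool.Agent.TH140.KT.Comb

set_option autoImplicit false

namespace Pool.Agent.TH140.KT

open Finset

lemma exists_m {c : ℝ} (h0 : 0 < c) (h1 : c < 1) :
    ∃ m : ℕ, 1 ≤ m ∧ c ^ m ≤ 3 / 98 * Real.exp (-4 * √((m : ℝ) + 2)) := by
  set δ : ℝ := 3 / 98 * Real.exp (-8) with hδ
  have hδ0 : 0 < δ := by positivity
  have hδ1 : δ ≤ 1 := by
    have : Real.exp (-8) ≤ 1 := Real.exp_le_one_iff.2 (by norm_num)
    rw [hδ]; linarith
  obtain ⟨n, hn⟩ := exists_pow_lt_of_lt_one (show (0 : ℝ) < Real.exp (-4) * δ by positivity) h1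
  have hj : c ^ (n + 1) ≤ Real.exp (-4) * δ :=
    (pow_le_pow_of_le_one h0.le h1.le (Nat.le_succ n)).trans hn.le
  refine ⟨(n + 1) * (n + 1), Nat.one_le_iff_ne_zero.2 (by positivity), ?_⟩
  have hs : √((((n + 1) * (n + 1) : ℕ) : ℝ) + 2) ≤ ((n : ℝ) + 1) + 2 := by
    rw [Real.sqrt_le_left (by positivity)]
    push_cast
    nlinarith [(Nat.cast_nonneg n : (0 : ℝ) ≤ n)]
  calc c ^ ((n + 1) * (n + 1)) = (c ^ (n + 1)) ^ (n + 1) := by rw [pow_mul]
    _ ≤ (Real.exp (-4) * δ) ^ (n + 1) := pow_le_pow_left₀ (by positivity) hj _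
    _ = Real.exp (-4) ^ (n + 1) * δ ^ (n + 1) := mul_pow _ _ _
    _ ≤ Real.exp (-4) ^ (n + 1) * δ := by
        refine mul_le_mul_of_nonneg_left ?_ (by positivity)
        exact pow_le_of_le_one hδ0.le hδ1 (by omega)
    _ = 3 / 98 * Real.exp (-4 * (((n : ℝ) + 1) + 2)) := by
        rw [hδ, ← Real.exp_nat_mul]
        rw [show (-4 : ℝ) * (((n : ℝ) + 1) + 2) = ((n + 1 : ℕ) : ℝ) * -4 + -8 by push_cast; ring,
          Real.exp_add]
        ring
    _ ≤ _ := by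
        refine mul_le_mul_of_nonneg_left (Real.exp_le_exp.2 ?_) (by norm_num)
        linarith

/-- Large diagonals. -/
lemma exists_diag {c : ℝ} (h0 : 0 < c) (h1 : c < 1) :
    ∃ m : ℕ, 1 ≤ m ∧ ∃ K : Finset (Tri m), (∀ i ∈ K, ∀ j ∈ K, ∀ k ∈ K,
      (∀ t, co 0 i t ≠ co 1 j t ∧ co 0 i t ≠ co 2 k t ∧ co 1 j t ≠ co 2 k t) → i = j ∧ j = k) ∧
      c ^ m * 3 ^ m ≤ (K.card : ℝ) := by
  obtain ⟨m, hm, hcm⟩ := exists_m h0 h1
  set N : ℕ := 3 * 2 ^ m + 1 with hN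
  set M : ℕ := 6 * 2 ^ m + 1 with hM
  have hMN : M + 1 = 2 * N := by omega
  haveI : NeZero M := ⟨by omega⟩
  obtain ⟨t, ht, htc, hfree⟩ := rothNumberNat_spec N
  have htN : ∀ a ∈ t, a < N := fun a ha => mem_range.1 (ht ha)
  set B : Finset (ZMod M) := t.image (fun a : ℕ => (a : ZMod M)) with hB
  have hBc : B.card = t.card := by
    rw [hB]
    refine Finset.card_image_of_injOn ?_
    intro a ha b hb hab
    have h2 := htN a ha
    have h3 := htN b hb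
    simp only at hab
    rw [ZMod.natCast_eq_natCast_iff'] at hab
    rwa [Nat.mod_eq_of_lt (by omega), Nat.mod_eq_of_lt (by omega)] at hab
  have hBfree : ∀ a ∈ B, ∀ b ∈ B, ∀ c ∈ B, a + b = 2 * c → a = b ∧ b = c := by
    intro a ha b hb c hc habc
    rw [hB, mem_image] at ha hb hc
    obtain ⟨a, ha, rfl⟩ := ha
    obtain ⟨b, hb, rfl⟩ := hb
    obtain ⟨c, hc, rfl⟩ := hc
    have h2 := htN a ha
    have h3 := htN b hb
    have h4 := htN c hc
    have h5 : ((a + b : ℕ) : ZMod M) = ((2 * c : ℕ) : ZMod M) := by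
      push_cast
      exact habc
    rw [ZMod.natCast_eq_natCast_iff', Nat.mod_eq_of_lt (by omega),
      Nat.mod_eq_of_lt (by omega)] at h5
    have e1 : a = c := hfree ha hc hb (by omega)
    have e2 : b = c := hfree hb hc ha (by omega)
    subst e1
    subst e2
    exact ⟨rfl, rfl⟩
  obtain ⟨q, K, hK, hcard⟩ := exists_sel (m := m) (M := M) ⟨3 * 2 ^ m, by omega⟩ (by omega) B
  refine ⟨m, hm, K, fun i hi j hj k hk h => sel_diag hBfree q (hK i hi) (hK j hj) (hK k hk) h, ?_⟩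
  have hroth := Behrend.roth_lower_bound (N := N)
  rw [← htc, ← hBc] at hroth
  set E : ℝ := Real.exp (-4 * √((m : ℝ) + 2)) with hE
  have hlog : Real.log (N : ℝ) ≤ (m : ℝ) + 2 := by
    have h2 : (N : ℝ) ≤ 2 ^ (m + 2) := by
      have : N ≤ 2 ^ (m + 2) := by
        rw [pow_add]
        have : 1 ≤ 2 ^ m := Nat.one_le_two_pow
        omega
      exact_mod_cast this
    have h3 : (0 : ℝ) < N := by
      have : 0 < N := by omega
      exact_mod_cast this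
    calc Real.log N ≤ Real.log (2 ^ (m + 2)) := Real.log_le_log h3 h2
      _ = ((m + 2 : ℕ) : ℝ) * Real.log 2 := by rw [Real.log_pow]
      _ ≤ ((m + 2 : ℕ) : ℝ) * 1 := by
          refine mul_le_mul_of_nonneg_left ?_ (Nat.cast_nonneg _)
          have := Real.log_two_lt_d9
          linarith
      _ = (m : ℝ) + 2 := by push_cast; ring
  have hEle : E ≤ Real.exp (-4 * √(Real.log (N : ℝ))) := by
    refine Real.exp_le_exp.2 ?_
    have := Real.sqrt_le_sqrt hlog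
    linarith
  have hE0 : 0 < E := Real.exp_pos _
  have hBlow : 3 * 2 ^ m * E ≤ (B.card : ℝ) := by
    refine le_trans ?_ hroth
    have h2 : (3 * 2 ^ m : ℝ) ≤ (N : ℝ) := by
      have : 3 * 2 ^ m ≤ N := by omega
      exact_mod_cast this
    exact mul_le_mul h2 hEle hE0.le (Nat.cast_nonneg _)
  have hcardR : (6 : ℝ) ^ m * (B.card : ℝ) ≤ 2 * (M : ℝ) ^ 2 * (K.card : ℝ) := by
    exact_mod_cast hcard
  have hM7 : (M : ℝ) ≤ 7 * 2 ^ m := by
    have : M ≤ 7 * 2 ^ m := by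
      have : 1 ≤ 2 ^ m := Nat.one_le_two_pow
      omega
    exact_mod_cast this
  have hM2 : 2 * (M : ℝ) ^ 2 ≤ 98 * 4 ^ m := by
    have h2 : (M : ℝ) ^ 2 ≤ (7 * 2 ^ m) ^ 2 := pow_le_pow_left₀ (Nat.cast_nonneg _) hM7 2
    have h3 : ((7 : ℝ) * 2 ^ m) ^ 2 = 49 * 4 ^ m := by
      rw [mul_pow, ← pow_mul, mul_comm m 2, pow_mul]
      norm_num
    linarith
  have hfin : (3 : ℝ) ^ m * (3 / 98 * E) * (98 * 4 ^ m) ≤ (K.card : ℝ) * (98 * 4 ^ m) := by
    calc (3 : ℝ) ^ m * (3 / 98 * E) * (98 * 4 ^ m) = (3 ^ m * 4 ^ m) * (3 * E) := by ring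
      _ = (6 ^ m * 2 ^ m) * (3 * E) := by
          rw [← mul_pow, ← mul_pow]
          norm_num
      _ = 6 ^ m * (3 * 2 ^ m * E) := by ring
      _ ≤ 6 ^ m * (B.card : ℝ) := mul_le_mul_of_nonneg_left hBlow (by positivity)
      _ ≤ 2 * (M : ℝ) ^ 2 * (K.card : ℝ) := hcardR
      _ ≤ 98 * 4 ^ m * (K.card : ℝ) := mul_le_mul_of_nonneg_right hM2 (Nat.cast_nonneg _)
      _ = (K.card : ℝ) * (98 * 4 ^ m) := by ring
  have hfin2 := le_of_mul_le_mul_right hfin (by positivity)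
  calc c ^ m * 3 ^ m ≤ (3 / 98 * E) * 3 ^ m := mul_le_mul_of_nonneg_right hcm (by positivity)
    _ = 3 ^ m * (3 / 98 * E) := by ring
    _ ≤ _ := hfin2

end Pool.Agent.TH140.KT
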