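import Mathlib
import Pool.Agent.TH140.KT.Count
import Pool.Agent.H277R2.Tens8

set_option autoImplicit false

namespace Pool.Agent.TH140.KT

open Finset Pool.Agent.H277R2.Tens

section scaling

variable {p : ℕ} [Fact p.Prime]

/-- Nonzero coefficients on the diagonal do not change the bias. -/
lemma bias_scale {d : ℕ} {κ : Type*} [Fintype κ] [DecidableEq κ]
    (B : Tensor (ZMod p) (d + 1) κ) (c : κ → ZMod p) (hc : ∀ a, c a ≠ 0)
    (hB : ∀ I : Fin (d + 1) → κ, B I = c (I 0) * idT I) :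
    bias B = bias (idT : Tensor (ZMod p) (d + 1) κ) := by
  unfold bias
  congr 2
  let f : (Fin (d + 1) → κ → ZMod p) → (Fin (d + 1) → κ → ZMod p) := fun X =>
    Function.update X 0 (fun a => c a * X 0 a)
  let g : (Fin (d + 1) → κ → ZMod p) → (Fin (d + 1) → κ → ZMod p) := fun X =>
    Function.update X 0 (fun a => (c a)⁻¹ * X 0 a)
  have hfg : ∀ X, g (f X) = X := by
    intro X
    funext j a
    by_cases hj : j = 0
    · subst hj
      simp only [f, g, Function.update_self]
      rw [← mul_assoc, inv_mul_cancel₀ (hc a), one_mul]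
    · simp only [f, g, Function.update_of_ne hj]
  have hgf : ∀ X, f (g X) = X := by
    intro X
    funext j a
    by_cases hj : j = 0
    · subst hj
      simp only [f, g, Function.update_self]
      rw [← mul_assoc, mul_inv_cancel₀ (hc a), one_mul]
    · simp only [f, g, Function.update_of_ne hj]
  refine Fintype.sum_equiv ⟨f, g, hfg, hgf⟩ _ _ fun X => ?_
  congr 1
  show form B X = form idT (f X)
  unfold form
  refine Finset.sum_congr rfl fun I _ => ?_
  rw [hB, Fin.prod_univ_succ, Fin.prod_univ_succ]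
  simp only [f, Function.update_self]
  have h1 : ∀ i : Fin d, Function.update X 0 (fun a => c a * X 0 a) i.succ = X i.succ := fun i =>
    Function.update_of_ne (Fin.succ_ne_zero i) _ _
  simp only [h1]
  ring

/-- Lower bound for the analytic rank from a diagonal restriction with nonzero coefficients. -/
lemma arank_ge' {d : ℕ} {ι κ : Type*} [Fintype ι] [DecidableEq ι] [Fintype κ] [DecidableEq κ]
    {B : Tensor (ZMod p) (d + 2) ι} (φ : Fin (d + 2) → κ → ι) (hφ : ∀ j, Function.Injective (φ j))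
    (c : κ → ZMod p) (hc : ∀ a, c a ≠ 0)
    (hB : ∀ I : Fin (d + 2) → κ, B (fun j => φ j (I j)) = c (I 0) * idT I) :
    Fintype.card κ * alpha p (d + 1) ≤ arank B := by
  have h1 := bias_le_restrict B φ hφ
  rw [bias_scale (d := d + 1) (fun I : Fin (d + 2) → κ => B (fun j => φ j (I j))) c hc hB] at h1
  rw [← arank_idT (d + 1) (κ := κ)]
  unfold arank
  have := Real.logb_le_logb_of_le (one_lt_p (p := p)) (bias_pos B) h1
  linarith

end scaling

/-- Twice the Levi-Civita tensor. -/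
def lc (p : ℕ) : Tensor (ZMod p) 3 (Fin 3) := fun I =>
  (((I 1 : ℕ) : ZMod p) - ((I 0 : ℕ) : ZMod p)) * (((I 2 : ℕ) : ZMod p) - ((I 1 : ℕ) : ZMod p)) *
    (((I 2 : ℕ) : ZMod p) - ((I 0 : ℕ) : ZMod p))

variable {p : ℕ} [Fact p.Prime]

lemma lc_ne (hp : Odd p) {I : Fin 3 → Fin 3} (h1 : I 0 ≠ I 1) (h2 : I 0 ≠ I 2) (h3 : I 1 ≠ I 2) :
    lc p I ≠ 0 := by
  haveI : NeZero p := ⟨(Fact.out : p.Prime).ne_zero⟩
  unfold lc
  exact mul_ne_zero (mul_ne_zero (unit_sub hp h1.symm).ne_zero (unit_sub hp h3.symm).ne_zero)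
    (unit_sub hp h2.symm).ne_zero

lemma lc_zero {I : Fin 3 → Fin 3} (h : ¬ (I 0 ≠ I 1 ∧ I 0 ≠ I 2 ∧ I 1 ≠ I 2)) :
    lc p I = 0 := by
  unfold lc
  by_cases h1 : I 0 = I 1
  · rw [h1]; ring
  · by_cases h2 : I 0 = I 2
    · rw [h2]; ring
    · have h3 : I 1 = I 2 := by
        by_contra h3
        exact h ⟨h1, h2, h3⟩
      rw [h3]; ring

/-- The analytic rank of the powers. -/
lemma arank_tpow_ge (hp : Odd p) {m : ℕ} (K : Finset (Tri m)) (hK : ∀ i ∈ K, ∀ j ∈ K, ∀ k ∈ K,
      (∀ t, co 0 i t ≠ co 1 j t ∧ co 0 i t ≠ co 2 k t ∧ co 1 j t ≠ co 2 k t) → i = j ∧ j = k) :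
    (K.card : ℝ) * alpha p 2 ≤ arank (tpow (lc p) m) := by
  classical
  have hself : ∀ s : Tri m, ∀ t, co 0 s t ≠ co 1 s t ∧ co 0 s t ≠ co 2 s t ∧
      co 1 s t ≠ co 2 s t := by
    intro s t
    refine ⟨fun h => ?_, fun h => ?_, fun h => ?_⟩
    · exact absurd ((s t).injective h) (by decide)
    · exact absurd ((s t).injective h) (by decide)
    · exact absurd ((s t).injective h) (by decide)
  let φ : Fin 3 → {s // s ∈ K} → (Fin m → Fin 3) := fun j s => co j s.1
  have hφ : ∀ j, Function.Injective (φ j) := by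
    intro j
    rintro ⟨s, hs⟩ ⟨s', hs'⟩ h
    have h' : co j s = co j s' := h
    apply Subtype.ext
    show s = s'
    fin_cases j
    · refine (hK s hs s' hs' s' hs' fun t => ?_).1
      have := congrFun h' t
      simp only [Fin.zero_eta] at this
      rw [this]
      exact hself s' t
    · refine (hK s' hs' s hs s' hs' fun t => ?_).1.symm
      have := congrFun h' t
      simp only [Fin.mk_one] at this
      rw [this]
      exact hself s' t
    · refine (hK s' hs' s' hs' s hs fun t => ?_).2.symm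
      have := congrFun h' t
      simp only [Fin.reduceFinMk] at this
      rw [this]
      exact hself s' t
  have hmain : ∀ I : Fin 3 → {s // s ∈ K}, tpow (lc p) m (fun j => φ j (I j)) =
      (fun s : {s // s ∈ K} => ∏ t, lc p (fun j => co j s.1 t)) (I 0) * idT I := by
    intro I
    by_cases hI : ∀ j k, I j = I k
    · have h1 : (idT I : ZMod p) = 1 := by unfold idT; rw [if_pos hI]
      rw [h1, mul_one]
      unfold tpow
      refine Finset.prod_congr rfl fun t _ => ?_
      congr 1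
      funext j
      show co j (I j).1 t = co j (I 0).1 t
      rw [hI j 0]
    · have h1 : (idT I : ZMod p) = 0 := by unfold idT; rw [if_neg hI]
      rw [h1, mul_zero]
      have h2 : ¬ ∀ t, co 0 (I 0).1 t ≠ co 1 (I 1).1 t ∧ co 0 (I 0).1 t ≠ co 2 (I 2).1 t ∧
          co 1 (I 1).1 t ≠ co 2 (I 2).1 t := by
        intro h
        obtain ⟨e1, e2⟩ := hK _ (I 0).2 _ (I 1).2 _ (I 2).2 h
        apply hI
        have f1 : I 0 = I 1 := Subtype.ext e1
        have f2 : I 1 = I 2 := Subtype.ext e2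
        intro j k
        have : ∀ j, I j = I 0 := by
          intro j
          fin_cases j
          · rfl
          · exact f1.symm
          · exact (f1.trans f2).symm
        rw [this j, this k]
      push Not at h2
      obtain ⟨t, ht⟩ := h2
      unfold tpow
      refine Finset.prod_eq_zero (mem_univ t) (lc_zero ?_)
      rintro ⟨a1, a2, a3⟩
      exact a3 (ht a1 a2)
  have hres := arank_ge' (d := 1) (B := tpow (lc p) m) φ hφ
    (fun s : {s // s ∈ K} => ∏ t, lc p (fun j => co j s.1 t))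
    (fun s => Finset.prod_ne_zero_iff.2 fun t _ =>
      lc_ne hp (hself s.1 t).1 (hself s.1 t).2.1 (hself s.1 t).2.2) hmain
  rw [Fintype.card_coe] at hres
  exact hres

/-- Proportional first two arguments give zero. -/
lemma form_lc_zero (hp : Odd p) (X : Fin 3 → Fin 3 → ZMod p) (l : ZMod p)
    (h : X 1 = fun a => l * X 0 a) : form (lc p) X = 0 := by
  have h2 : (2 : ZMod p) ≠ 0 := by
    have := (unit_sub (M := p) hp (a := 2) (b := 0) (by decide))
    haveI : NeZero p := ⟨(Fact.out : p.Prime).ne_zero⟩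
    have h3 := (unit_sub (M := p) hp (a := 2) (b := 0) (by decide)).ne_zero
    simpa using h3
  have hS : form (lc p) X = - form (lc p) X := by
    conv_lhs => unfold form
    rw [← Equiv.sum_comp (Equiv.arrowCongr (Equiv.swap (0 : Fin 3) 1) (Equiv.refl (Fin 3)))]
    unfold form
    rw [← Finset.sum_neg_distrib]
    refine Finset.sum_congr rfl fun I _ => ?_
    have e0 : (Equiv.arrowCongr (Equiv.swap (0 : Fin 3) 1) (Equiv.refl (Fin 3))) I 0 = I 1 := by
      simp [Equiv.arrowCongr]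
    have e1 : (Equiv.arrowCongr (Equiv.swap (0 : Fin 3) 1) (Equiv.refl (Fin 3))) I 1 = I 0 := by
      simp [Equiv.arrowCongr]
    have e2 : (Equiv.arrowCongr (Equiv.swap (0 : Fin 3) 1) (Equiv.refl (Fin 3))) I 2 = I 2 := by
      have : (Equiv.swap (0 : Fin 3) 1) 2 = 2 := by decide
      simp [Equiv.arrowCongr, this]
    unfold lc
    rw [Fin.prod_univ_three, Fin.prod_univ_three, e0, e1, e2, h]
    ring
  have h4 : (2 : ZMod p) * form (lc p) X = 0 := by linear_combination hS
  exact (mul_eq_zero.1 h4).resolve_left h2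

lemma form_lc_zero' (X : Fin 3 → Fin 3 → ZMod p) (h : X 0 = 0) : form (lc p) X = 0 := by
  unfold form
  refine Finset.sum_eq_zero fun I _ => ?_
  rw [Finset.prod_eq_zero (mem_univ (0 : Fin 3)), mul_zero]
  rw [h]
  rfl

/-- Many zeros. -/
lemma bias_lc_ge (hp : Odd p) :
    ((p : ℝ) ^ 3 * (p ^ 3 + (p ^ 3 - 1) * p)) / (p : ℝ) ^ 9 ≤ bias (lc p) := by
  classical
  rw [bias_eq_count (lc p) 2]
  have hcard : (Fintype.card (Fin 3 → Fin 3 → ZMod p) : ℝ) = (p : ℝ) ^ 9 := by
    rw [Fintype.card_fun, Fintype.card_fun, ZMod.card, Fintype.card_fin]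
    push_cast
    rw [← pow_mul]
  rw [hcard]
  refine div_le_div_of_nonneg_right ?_ (by positivity)
  set F := univ.filter (fun X : Fin 3 → Fin 3 → ZMod p =>
    ∀ i, form (lc p) (Function.update X 2 (Pi.single i 1)) = 0) with hF
  let g1 : (Fin 3 → ZMod p) × (Fin 3 → ZMod p) → (Fin 3 → Fin 3 → ZMod p) := fun q =>
    ![0, q.1, q.2]
  let g2 : (Fin 3 → ZMod p) × ZMod p × (Fin 3 → ZMod p) → (Fin 3 → Fin 3 → ZMod p) := fun q =>
    ![q.1, fun a => q.2.1 * q.1 a, q.2.2]
  set A1 := (univ : Finset ((Fin 3 → ZMod p) × (Fin 3 → ZMod p))).image g1 with hA1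
  set A2 := ((univ : Finset (Fin 3 → ZMod p)).erase 0 ×ˢ
    (univ : Finset (ZMod p × (Fin 3 → ZMod p)))).image g2 with hA2
  have hc0 : Fintype.card (Fin 3 → ZMod p) = p ^ 3 := by
    rw [Fintype.card_fun, ZMod.card, Fintype.card_fin]
  have c1 : A1.card = p ^ 3 * p ^ 3 := by
    rw [hA1, Finset.card_image_of_injective, card_univ, Fintype.card_prod, hc0]
    rintro ⟨y, z⟩ ⟨y', z'⟩ h
    have e1 := congrFun h 1
    have e2 := congrFun h 2
    simp only [g1, Matrix.cons_val_one, Matrix.cons_val_zero, Matrix.cons_val] at e1 e2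
    rw [e1, e2]
  have c2 : A2.card = (p ^ 3 - 1) * (p * p ^ 3) := by
    rw [hA2, Finset.card_image_of_injOn, card_product, card_erase_of_mem (mem_univ _), card_univ,
      card_univ, Fintype.card_prod, hc0, ZMod.card]
    rintro ⟨x, l, z⟩ hx ⟨x', l', z'⟩ _ h
    have e0 := congrFun h 0
    have e1 := congrFun h 1
    have e2 := congrFun h 2
    simp only [g2, Matrix.cons_val_one, Matrix.cons_val_zero, Matrix.cons_val] at e0 e1 e2
    subst e0
    simp only [coe_product, Set.mem_prod, coe_erase, coe_univ, Set.mem_diff, Set.mem_univ,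
      true_and, Set.mem_singleton_iff, and_true] at hx
    obtain ⟨a, ha⟩ : ∃ a, x a ≠ 0 := by
      by_contra hc
      push Not at hc
      exact hx (funext hc)
    have h3 := congrFun e1 a
    have h4 : l = l' := mul_right_cancel₀ ha h3
    rw [h4, e2]
  have hdisj : Disjoint A1 A2 := by
    rw [Finset.disjoint_left]
    intro X h1 h2
    rw [hA1, mem_image] at h1
    rw [hA2, mem_image] at h2
    obtain ⟨⟨y, z⟩, -, rfl⟩ := h1
    obtain ⟨⟨x, l, z'⟩, hx, h⟩ := h2
    have e0 := congrFun h 0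
    simp only [g1, g2, Matrix.cons_val_zero] at e0
    rw [mem_product, mem_erase] at hx
    exact hx.1.1 e0
  have hsub : A1 ∪ A2 ⊆ F := by
    intro X hX
    rw [mem_union] at hX
    simp only [hF, mem_filter, mem_univ, true_and]
    intro i
    rcases hX with hX | hX
    · rw [hA1, mem_image] at hX
      obtain ⟨⟨y, z⟩, -, rfl⟩ := hX
      refine form_lc_zero' _ ?_
      rw [Function.update_of_ne (by decide)]
      rfl
    · rw [hA2, mem_image] at hX
      obtain ⟨⟨x, l, z⟩, -, rfl⟩ := hX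
      refine form_lc_zero hp _ l ?_
      rw [Function.update_of_ne (by decide), Function.update_of_ne (by decide)]
      rfl
  have hle := Finset.card_le_card hsub
  rw [Finset.card_union_of_disjoint hdisj, c1, c2] at hle
  have h1 : 1 ≤ p ^ 3 := Nat.one_le_pow _ _ (Fact.out : p.Prime).pos
  have hle' : (p : ℝ) ^ 3 * (p : ℝ) ^ 3 + ((p : ℝ) ^ 3 - 1) * (p * (p : ℝ) ^ 3) ≤ (F.card : ℝ) := by
    have h2 : ((p ^ 3 * p ^ 3 + (p ^ 3 - 1) * (p * p ^ 3) : ℕ) : ℝ) ≤ (F.card : ℝ) := by
      exact_mod_cast hle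
    push_cast [Nat.cast_sub h1] at h2
    exact h2
  calc (p : ℝ) ^ 3 * (p ^ 3 + (p ^ 3 - 1) * p) =
      (p : ℝ) ^ 3 * (p : ℝ) ^ 3 + ((p : ℝ) ^ 3 - 1) * (p * (p : ℝ) ^ 3) := by ring
    _ ≤ _ := hle'

lemma Zc_two_le : Zc p 2 + 1 ≤ 2 * p := by
  classical
  unfold Zc
  set S0 := univ.filter (fun y : Fin 2 → ZMod p => y 0 = 0) with hS0
  set S1 := univ.filter (fun y : Fin 2 → ZMod p => y 1 = 0) with hS1
  have h0 : S0.card ≤ p := by
    have : S0.card ≤ (univ : Finset (ZMod p)).card := by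
      refine Finset.card_le_card_of_injOn (fun y => y 1) (fun _ _ => mem_univ _) ?_
      intro y hy y' hy' h
      simp only [hS0, coe_filter, mem_univ, true_and, Set.mem_setOf_eq] at hy hy'
      funext j
      fin_cases j
      · simp only [Fin.zero_eta]
        rw [hy, hy']
      · exact h
    rwa [card_univ, ZMod.card] at this
  have h1 : S1.card ≤ p := by
    have : S1.card ≤ (univ : Finset (ZMod p)).card := by
      refine Finset.card_le_card_of_injOn (fun y => y 0) (fun _ _ => mem_univ _) ?_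
      intro y hy y' hy' h
      simp only [hS1, coe_filter, mem_univ, true_and, Set.mem_setOf_eq] at hy hy'
      funext j
      fin_cases j
      · exact h
      · simp only [Fin.mk_one]
        rw [hy, hy']
    rwa [card_univ, ZMod.card] at this
  have hsub : (univ.filter (fun y : Fin 2 → ZMod p => ∏ j, y j = 0)) ⊆ S0 ∪ S1 := by
    intro y hy
    simp only [mem_filter, mem_univ, true_and, Fin.prod_univ_two, mul_eq_zero] at hy
    simp only [hS0, hS1, mem_union, mem_filter, mem_univ, true_and]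
    exact hy
  have hint : 1 ≤ (S0 ∩ S1).card := by
    rw [Finset.one_le_card]
    refine ⟨0, ?_⟩
    simp [hS0, hS1]
  have := Finset.card_union_add_card_inter S0 S1
  have h3 := Finset.card_le_card hsub
  omega

/-- The analytic rank of the Levi-Civita tensor is smaller than that of the identity tensor. -/
lemma arank_lc_lt (hp5 : 5 ≤ p) :
    arank (lc p) < arank (idT : Tensor (ZMod p) 3 (Fin 3)) := by
  have hp : Odd p := (Fact.out : p.Prime).odd_of_ne_two (by omega)
  have h1 := bias_lc_ge hp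
  have h2 : bias (idT : Tensor (ZMod p) 3 (Fin 3)) = ((Zc p 2 : ℝ) / (p : ℝ) ^ 2) ^ 3 := by
    rw [bias_idT, Fintype.card_fin]
  have hpR : (5 : ℝ) ≤ p := by exact_mod_cast hp5
  have hZ : (Zc p 2 : ℝ) ≤ 2 * p - 1 := by
    have : ((Zc p 2 + 1 : ℕ) : ℝ) ≤ ((2 * p : ℕ) : ℝ) := by exact_mod_cast Zc_two_le (p := p)
    push_cast at this
    linarith
  have h3 : bias (idT : Tensor (ZMod p) 3 (Fin 3)) < bias (lc p) := by
    refine lt_of_lt_of_le ?_ h1
    rw [h2, div_pow, ← pow_mul, div_lt_div_iff₀ (by positivity) (by positivity)]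
    have h4 : (Zc p 2 : ℝ) ^ 3 ≤ (2 * p - 1) ^ 3 := pow_le_pow_left₀ (Nat.cast_nonneg _) hZ 3
    have h5 : (2 * (p : ℝ) - 1) ^ 3 < p ^ 3 + (p ^ 3 - 1) * p := by
      obtain ⟨k, hk⟩ : ∃ k : ℝ, (p : ℝ) = 5 + k := ⟨p - 5, by ring⟩
      have hk0 : 0 ≤ k := by linarith
      rw [hk]
      have : (5 + k) ^ 3 + ((5 + k) ^ 3 - 1) * (5 + k) - (2 * (5 + k) - 1) ^ 3 =
          k ^ 4 + 13 * k ^ 3 + 57 * k ^ 2 + 88 * k + 16 := by ring
      have h6 : 0 < k ^ 4 + 13 * k ^ 3 + 57 * k ^ 2 + 88 * k + 16 := by positivity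
      linarith
    have h7 : (0 : ℝ) < (p : ℝ) ^ 9 := by positivity
    calc (Zc p 2 : ℝ) ^ 3 * (p : ℝ) ^ 9 ≤ (2 * p - 1) ^ 3 * (p : ℝ) ^ 9 :=
          mul_le_mul_of_nonneg_right h4 h7.le
      _ < (p ^ 3 + (p ^ 3 - 1) * p) * (p : ℝ) ^ 9 := mul_lt_mul_of_pos_right h5 h7
      _ = (p : ℝ) ^ 3 * (p ^ 3 + (p ^ 3 - 1) * p) * (p : ℝ) ^ (2 * 3) := by ring
  unfold arank
  have := Real.logb_lt_logb (one_lt_p (p := p)) (bias_pos (d := 1) idT) h3
  linarith

/-- Tensorization fails for the analytic rank of three-dimensional tensors. -/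
theorem main3 (hp5 : 5 ≤ p) {c : ℝ} (hc : c < 1) :
    ∃ m : ℕ, 1 ≤ m ∧ c ^ m * arank (tpow (idT : Tensor (ZMod p) 3 (Fin 3)) m) ≤
      arank (tpow (lc p) m) := by
  have hp : Odd p := (Fact.out : p.Prime).odd_of_ne_two (by omega)
  rcases le_or_gt c 0 with hc0 | hc0
  · refine ⟨1, le_refl _, ?_⟩
    rw [pow_one]
    have h1 : 0 ≤ arank (tpow (idT : Tensor (ZMod p) 3 (Fin 3)) 1) := arank_nonneg (d := 2) _
    have h2 : 0 ≤ arank (tpow (lc p) 1) := arank_nonneg (d := 2) _
    nlinarith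
  · obtain ⟨m, hm, K, hK, hcard⟩ := exists_diag hc0 hc
    refine ⟨m, hm, ?_⟩
    rw [tpow_idT, arank_idT 2]
    have h5 := arank_tpow_ge (p := p) hp K hK
    have h6 : (Fintype.card (Fin m → Fin 3) : ℝ) = 3 ^ m := by
      rw [Fintype.card_fun, Fintype.card_fin, Fintype.card_fin]
      push_cast; rfl
    rw [h6, ← mul_assoc]
    exact (mul_le_mul_of_nonneg_right hcard (alpha_pos 1).le).trans h5

end Pool.Agent.TH140.KT
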