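import Mathlib
import Pool.Agent.H277R2.Tens8

set_option autoImplicit false

namespace Pool.Agent.TH140.KT

open Finset Pool.Agent.H277R2.Tens

/-- direct sum of a family of tensors -/
noncomputable def dsum {F : Type*} [Field F] {d : ℕ} {T κ : Type*} (B : T → Tensor F (d + 1) κ) :
    Tensor F (d + 1) (T × κ) := fun I =>
  (idT : Tensor F (d + 1) T) (fun j => (I j).1) * B (I 0).1 (fun j => (I j).2)

lemma form_dsum {F : Type*} [Field F] {d : ℕ} {T κ : Type*} [Fintype T] [Fintype κ]
    (B : T → Tensor F (d + 1) κ) (X : Fin (d + 1) → T × κ → F) :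
    form (dsum B) X = ∑ t, form (B t) (fun j a => X j (t, a)) := by
  classical
  unfold form
  have h1 : ∑ I : Fin (d + 1) → T × κ, dsum B I * ∏ j, X j (I j) =
      ∑ q : (Fin (d + 1) → T) × (Fin (d + 1) → κ),
        idT q.1 * B (q.1 0) q.2 * ∏ j, X j (q.1 j, q.2 j) :=
    Fintype.sum_equiv (Equiv.arrowProdEquivProdArrow (Fin (d + 1)) (fun _ => T) (fun _ => κ)) _ _
      fun I => rfl
  rw [h1, Fintype.sum_prod_type]
  symm
  refine Finset.sum_of_injOn (fun t : T => fun _ => t) ?_ ?_ ?_ ?_
  · intro a _ b _ h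
    exact congrFun h 0
  · intro a _; simp
  · intro I _ hI
    have : ¬ ∀ j k, I j = I k := by
      intro hc
      apply hI
      refine ⟨I 0, by simp, ?_⟩
      funext j
      exact hc 0 j
    refine Finset.sum_eq_zero fun J _ => ?_
    simp [idT, this]
  · intro a _
    simp [idT]

variable {p : ℕ} [Fact p.Prime]

/-- the bias of a direct sum, as complex numbers -/
lemma bias_dsum_complex {d : ℕ} {T κ : Type*} [Fintype T] [Fintype κ] [DecidableEq T]
    [DecidableEq κ] (B : T → Tensor (ZMod p) (d + 1) κ) :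
    (∑ X : Fin (d + 1) → T × κ → ZMod p, ZMod.stdAddChar (form (dsum B) X)) /
      (Fintype.card (Fin (d + 1) → T × κ → ZMod p) : ℂ) =
    ∏ t, ((∑ X : Fin (d + 1) → κ → ZMod p, ZMod.stdAddChar (form (B t) X)) /
      (Fintype.card (Fin (d + 1) → κ → ZMod p) : ℂ)) := by
  classical
  rw [Finset.prod_div_distrib, Finset.prod_const, card_univ]
  congr 1
  · have h0 : ∏ t, ∑ X : Fin (d + 1) → κ → ZMod p, (ZMod.stdAddChar (form (B t) X) : ℂ) =
        ∑ Y : T → Fin (d + 1) → κ → ZMod p, ∏ t, (ZMod.stdAddChar (form (B t) (Y t)) : ℂ) := by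
      rw [Finset.prod_univ_sum, Fintype.piFinset_univ]
    rw [h0]
    let e : (Fin (d + 1) → T × κ → ZMod p) ≃ (T → Fin (d + 1) → κ → ZMod p) :=
      { toFun := fun X t j a => X j (t, a)
        invFun := fun Y j q => Y q.1 j q.2
        left_inv := fun X => rfl
        right_inv := fun Y => rfl }
    refine Fintype.sum_equiv e _ _ fun X => ?_
    rw [form_dsum, char_sum]
    rfl
  · rw [← Nat.cast_pow]
    congr 1
    rw [Fintype.card_fun, Fintype.card_fun, Fintype.card_fun, Fintype.card_fun, Fintype.card_prod,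
      Fintype.card_fin, ZMod.card]
    rw [← pow_mul, ← pow_mul, ← pow_mul]
    ring

lemma bias_complex {d : ℕ} {κ : Type*} [Fintype κ] [DecidableEq κ]
    (B : Tensor (ZMod p) (d + 1) κ) :
    (∑ X : Fin (d + 1) → κ → ZMod p, ZMod.stdAddChar (form B X)) /
      (Fintype.card (Fin (d + 1) → κ → ZMod p) : ℂ) = ((bias B : ℝ) : ℂ) := by
  classical
  have h1 := Phi_eq B (fun _ => Finset.univ) 0
  rw [Phi_univ] at h1
  have hm : ∀ X : Fin (d + 1) → κ → ZMod p, mask (fun _ => Finset.univ) X = X := by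
    intro X
    funext j i
    simp [mask]
  simp only [hm, Finset.mem_univ, forall_true_left] at h1
  rw [← Finset.sum_filter, Finset.sum_const, nsmul_eq_mul, mul_one] at h1
  rw [h1, bias_eq_count B 0]
  push_cast
  rfl

lemma bias_dsum {d : ℕ} {T κ : Type*} [Fintype T] [Fintype κ] [DecidableEq T]
    [DecidableEq κ] (B : T → Tensor (ZMod p) (d + 1) κ) :
    bias (dsum B) = ∏ t, bias (B t) := by
  have h := bias_dsum_complex B
  rw [bias_complex] at h
  simp only [bias_complex] at h
  exact_mod_cast h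

end Pool.Agent.TH140.KT
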