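import Mathlib
import Pool.Agent.TH140.KT.Cross

set_option autoImplicit false

namespace Pool.Agent.TH140.KT

open Finset Pool.Agent.H277R2.Tens

/-- the sign of `(a, b, c)` -/
def sg (a b c : Fin 3) : ℤ :=
  (((b : ℕ) : ℤ) - ((a : ℕ) : ℤ)) * (((c : ℕ) : ℤ) - ((b : ℕ) : ℤ)) *
    (((c : ℕ) : ℤ) - ((a : ℕ) : ℤ)) / 2

/-- the Levi-Civita tensor -/
def eps (p : ℕ) : Tensor (ZMod p) 3 (Fin 3) := fun I => ((sg (I 0) (I 1) (I 2) : ℤ) : ZMod p)

variable {p : ℕ} [Fact p.Prime]

/-- three-fold sums -/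
lemma sum_three {ι M : Type*} [Fintype ι] [AddCommMonoid M] (f : (Fin 3 → ι) → M) :
    ∑ I : Fin 3 → ι, f I = ∑ u : ι, ∑ v : ι, ∑ w : ι, f ![u, v, w] := by
  let e : ι × ι × ι ≃ (Fin 3 → ι) :=
    { toFun := fun q => ![q.1, q.2.1, q.2.2]
      invFun := fun I => (I 0, I 1, I 2)
      left_inv := fun q => rfl
      right_inv := fun I => by
        funext j
        fin_cases j <;> rfl }
  rw [← e.sum_comp, Fintype.sum_prod_type]
  refine Finset.sum_congr rfl fun u _ => ?_
  rw [Fintype.sum_prod_type]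
  rfl

lemma form_three {ι : Type*} [Fintype ι] [DecidableEq ι] (B : Tensor (ZMod p) 3 ι)
    (X : Fin 3 → ι → ZMod p) (w : ι) :
    form B (Function.update X 2 (Pi.single w 1)) =
      ∑ u : ι, ∑ v : ι, B ![u, v, w] * (X 0 u * X 1 v) := by
  unfold form
  rw [sum_three]
  refine Finset.sum_congr rfl fun u _ => Finset.sum_congr rfl fun v _ => ?_
  rw [Finset.sum_eq_single w]
  · rw [Fin.prod_univ_three, Function.update_of_ne (by decide), Function.update_of_ne (by decide),
      Function.update_self]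
    simp
  · intro b _ hb
    rw [Fin.prod_univ_three, Function.update_self]
    simp [Pi.single_eq_of_ne hb]
  · intro h
    exact absurd (mem_univ _) h

/-- the vector product -/
def cr (x y : Fin 3 → ZMod p) : Fin 3 → ZMod p :=
  ![x 1 * y 2 - x 2 * y 1, x 2 * y 0 - x 0 * y 2, x 0 * y 1 - x 1 * y 0]

lemma sum_sg (f : Fin 3 → Fin 3 → ZMod p) (a : Fin 3) :
    ∑ b : Fin 3, ∑ c : Fin 3, ((sg b c a : ℤ) : ZMod p) * f b c =
      ![f 1 2 - f 2 1, f 2 0 - f 0 2, f 0 1 - f 1 0] a := by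
  have s : ∀ b c a : Fin 3, sg b c a = ![![![0, 0, 0], ![0, 0, 1], ![0, -1, 0]],
      ![![0, 0, -1], ![0, 0, 0], ![1, 0, 0]], ![![0, 1, 0], ![-1, 0, 0], ![0, 0, 0]]] b c a := by
    decide
  simp only [Fin.sum_univ_three, s]
  fin_cases a <;> simp <;> ring

lemma form_eps (X : Fin 3 → Fin 3 → ZMod p) (a : Fin 3) :
    form (eps p) (Function.update X 2 (Pi.single a 1)) = cr (X 0) (X 1) a := by
  rw [form_three]
  have h := sum_sg (p := p) (fun b c => X 0 b * X 1 c) a
  unfold eps
  simp only [Matrix.cons_val_zero, Matrix.cons_val_one, Matrix.cons_val] at h ⊢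
  rw [h]
  unfold cr
  fin_cases a <;> simp

/-- rows of an array indexed by words of length two -/
def row (x : (Fin 2 → Fin 3) → ZMod p) (i a : Fin 3) : ZMod p := x ![i, a]

lemma row_inj : Function.Injective (row : ((Fin 2 → Fin 3) → ZMod p) → _) := by
  intro x y h
  funext w
  have h1 := congrFun (congrFun h (w 0)) (w 1)
  have h2 : ![w 0, w 1] = w := by
    funext j
    fin_cases j <;> rfl
  unfold row at h1
  rwa [h2] at h1

lemma sum_two {M : Type*} [AddCommMonoid M] (f : (Fin 2 → Fin 3) → M) :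
    ∑ u : Fin 2 → Fin 3, f u = ∑ i : Fin 3, ∑ a : Fin 3, f ![i, a] := by
  let e : Fin 3 × Fin 3 ≃ (Fin 2 → Fin 3) :=
    { toFun := fun q => ![q.1, q.2]
      invFun := fun I => (I 0, I 1)
      left_inv := fun q => rfl
      right_inv := fun I => by
        funext j
        fin_cases j <;> rfl }
  rw [← e.sum_comp, Fintype.sum_prod_type]
  rfl

lemma form_eps2 (X : Fin 3 → (Fin 2 → Fin 3) → ZMod p) (i a : Fin 3) :
    form (tpow (eps p) 2) (Function.update X 2 (Pi.single ![i, a] 1)) =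
      ![cr (row (X 0) 1) (row (X 1) 2) a - cr (row (X 0) 2) (row (X 1) 1) a,
        cr (row (X 0) 2) (row (X 1) 0) a - cr (row (X 0) 0) (row (X 1) 2) a,
        cr (row (X 0) 0) (row (X 1) 1) a - cr (row (X 0) 1) (row (X 1) 0) a] i := by
  rw [form_three]
  have h1 : ∀ j b k c : Fin 3, tpow (eps p) 2 ![![j, b], ![k, c], ![i, a]] =
      ((sg j k i : ℤ) : ZMod p) * ((sg b c a : ℤ) : ZMod p) := by
    intro j b k c
    unfold tpow eps
    rw [Fin.prod_univ_two]
    rfl
  simp only [sum_two, h1]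
  have h2 : ∀ j k : Fin 3, ∑ b : Fin 3, ∑ c : Fin 3, ((sg b c a : ℤ) : ZMod p) *
      (X 0 ![j, b] * X 1 ![k, c]) = cr (row (X 0) j) (row (X 1) k) a := by
    intro j k
    rw [sum_sg (p := p) (fun b c => X 0 ![j, b] * X 1 ![k, c]) a]
    unfold cr row
    fin_cases a <;> simp
  have h3 := sum_sg (p := p) (fun j k => cr (row (X 0) j) (row (X 1) k) a) i
  rw [← h3]
  refine Finset.sum_congr rfl fun j _ => ?_
  rw [Finset.sum_comm]
  refine Finset.sum_congr rfl fun k _ => ?_
  rw [← h2 j k, Finset.mul_sum]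
  refine Finset.sum_congr rfl fun b _ => ?_
  rw [Finset.mul_sum]
  refine Finset.sum_congr rfl fun c _ => ?_
  ring

/-- the condition -/
def Cond (x y : Fin 3 → Fin 3 → ZMod p) : Prop := ∀ i j, cr (x i) (y j) = cr (x j) (y i)

lemma cond_of (X : Fin 3 → (Fin 2 → Fin 3) → ZMod p)
    (h : ∀ w, form (tpow (eps p) 2) (Function.update X 2 (Pi.single w 1)) = 0) :
    Cond (row (X 0)) (row (X 1)) := by
  have e0 : cr (row (X 0) 1) (row (X 1) 2) = cr (row (X 0) 2) (row (X 1) 1) := by
    funext a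
    have := (form_eps2 X 0 a).symm.trans (h _)
    simp only [Matrix.cons_val_zero] at this
    exact sub_eq_zero.1 this
  have e1 : cr (row (X 0) 2) (row (X 1) 0) = cr (row (X 0) 0) (row (X 1) 2) := by
    funext a
    have := (form_eps2 X 1 a).symm.trans (h _)
    simp only [Matrix.cons_val_one, Matrix.cons_val_zero] at this
    exact sub_eq_zero.1 this
  have e2 : cr (row (X 0) 0) (row (X 1) 1) = cr (row (X 0) 1) (row (X 1) 0) := by
    funext a
    have := (form_eps2 X 2 a).symm.trans (h _)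
    simp only [Matrix.cons_val] at this
    exact sub_eq_zero.1 this
  intro i j
  fin_cases i <;> fin_cases j
  · rfl
  · exact e2
  · exact e1.symm
  · exact e2.symm
  · rfl
  · exact e0
  · exact e1
  · exact e0.symm
  · rfl

end Pool.Agent.TH140.KT
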