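import Mathlib
import Pool.Agent.TH140.KT.Eps

set_option autoImplicit false

namespace Pool.Agent.TH140.KT

open Finset Pool.Agent.H277R2.Tens

variable {p : ℕ} [Fact p.Prime]

lemma cr_sub_right (x y z : Fin 3 → ZMod p) : cr x (y - z) = cr x y - cr x z := by
  funext s
  unfold cr
  fin_cases s <;> simp <;> ring

lemma cr_sub_left (x y z : Fin 3 → ZMod p) : cr (x - y) z = cr x z - cr y z := by
  funext s
  unfold cr
  fin_cases s <;> simp <;> ring

lemma cr_zero_right (x : Fin 3 → ZMod p) : cr x 0 = 0 := by
  funext s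
  unfold cr
  fin_cases s <;> simp

lemma cr_anti (x y : Fin 3 → ZMod p) (s : Fin 3) : cr x y s = - cr y x s := by
  unfold cr
  fin_cases s <;> simp <;> ring

/-- the scalar product -/
def dt (x y : Fin 3 → ZMod p) : ZMod p := x 0 * y 0 + x 1 * y 1 + x 2 * y 2

lemma dt_cr (x y : Fin 3 → ZMod p) : dt x (cr x y) = 0 := by
  unfold dt cr
  simp
  ring

lemma dt_cr' (x y : Fin 3 → ZMod p) : dt x (cr y x) = 0 := by
  unfold dt cr
  simp
  ring

lemma cr_key (x y d : Fin 3 → ZMod p) (t s : Fin 3) :
    cr x y t * d s = cr d y t * x s + cr x d t * y s +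
      dt x (cr y d) * (if s = t then 1 else 0) := by
  unfold dt cr
  fin_cases t <;> fin_cases s <;> simp <;> ring

lemma cr_three (x y z d : Fin 3 → ZMod p) (s : Fin 3) :
    dt x (cr y z) * cr d x s = cr x y s * dt x (cr z d) - cr x z s * dt x (cr y d) := by
  unfold dt cr
  fin_cases s <;> simp <;> ring

lemma mul_of_cr {x y : Fin 3 → ZMod p} (h : cr x y = 0) (s t : Fin 3) :
    x s * y t = x t * y s := by
  have h0 := congrFun h 0
  have h1 := congrFun h 1
  have h2 := congrFun h 2
  simp only [cr, Matrix.cons_val_zero, Matrix.cons_val_one, Matrix.cons_val, Pi.zero_apply]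
    at h0 h1 h2
  fin_cases s <;> fin_cases t <;> simp only [Fin.zero_eta, Fin.mk_one, Fin.reduceFinMk] <;>
    first
    | ring1
    | linear_combination h0
    | linear_combination h1
    | linear_combination h2
    | linear_combination -h0
    | linear_combination -h1
    | linear_combination -h2

/-- parallel to `x`, and zero at a coordinate where `x` is not zero -/
lemma zero_of_cr {x d : Fin 3 → ZMod p} {t : Fin 3} (h : cr x d = 0) (hx : x t ≠ 0)
    (hd : d t = 0) : d = 0 := by
  funext s
  have h1 := mul_of_cr h t s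
  rw [hd, mul_zero] at h1
  exact (mul_eq_zero.1 h1).resolve_left hx

lemma zero_of_key {x y d : Fin 3 → ZMod p} {t : Fin 3} (hn : cr x y t ≠ 0) (h1 : cr d y t = 0)
    (h2 : cr x d t = 0) (h3 : dt x (cr y d) = 0) : d = 0 := by
  funext s
  have h := cr_key x y d t s
  rw [h1, h2, h3, zero_mul, zero_mul, zero_mul, add_zero, add_zero] at h
  exact (mul_eq_zero.1 h).resolve_left hn

lemma cond_sub {x y z : Fin 3 → Fin 3 → ZMod p} (h1 : Cond x y) (h2 : Cond x z) :
    Cond x (y - z) := by
  intro i j
  have e : ∀ i, (y - z) i = y i - z i := fun i => rfl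
  rw [e, e, cr_sub_right, cr_sub_right, h1 i j, h2 i j]

open Classical in
/-- number of solutions -/
noncomputable def Kc (x : Fin 3 → Fin 3 → ZMod p) : ℕ :=
  (univ.filter (fun y : Fin 3 → Fin 3 → ZMod p => Cond x y)).card

lemma Kc_le {W : Type*} [Fintype W] [AddGroup W] (x : Fin 3 → Fin 3 → ZMod p)
    (Φ : (Fin 3 → Fin 3 → ZMod p) → W) (hΦ : ∀ y z, Φ (y - z) = Φ y - Φ z)
    (h : ∀ D, Cond x D → Φ D = 0 → D = 0) : Kc x ≤ Fintype.card W := by
  classical
  rw [← card_univ]
  unfold Kc
  refine Finset.card_le_card_of_injOn Φ (fun _ _ => mem_univ _) ?_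
  intro y hy z hz hyz
  simp only [coe_filter, mem_univ, true_and, Set.mem_setOf_eq] at hy hz
  have := h (y - z) (cond_sub hy hz) (by rw [hΦ, hyz, sub_self])
  exact sub_eq_zero.1 this

lemma Kc_le_univ (x : Fin 3 → Fin 3 → ZMod p) : Kc x ≤ p ^ 9 := by
  classical
  unfold Kc
  refine (Finset.card_filter_le _ _).trans ?_
  rw [card_univ, Fintype.card_fun, Fintype.card_fun, ZMod.card, Fintype.card_fin, ← pow_mul]

lemma Kc_le_one {x : Fin 3 → Fin 3 → ZMod p} (hx : x ≠ 0) : Kc x ≤ p ^ 5 := by
  classical
  obtain ⟨i, hi⟩ : ∃ i, x i ≠ 0 := by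
    by_contra hc
    push Not at hc
    exact hx (funext hc)
  obtain ⟨t, ht⟩ : ∃ t, x i t ≠ 0 := by
    by_contra hc
    push Not at hc
    exact hi (funext hc)
  have h := Kc_le (W := (Fin 3 → ZMod p) × ({j : Fin 3 // j ≠ i} → ZMod p)) x
    (fun y => (y i, fun j => y j.1 t)) (fun y z => rfl) (by
      intro D hD h0
      have h1 : D i = 0 := congrArg Prod.fst h0
      have h2 : ∀ j, j ≠ i → D j t = 0 := by
        intro j hj
        have h3 : (fun j : {j : Fin 3 // j ≠ i} => D j.1 t) = 0 := congrArg Prod.snd h0
        exact congrFun h3 ⟨j, hj⟩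
      funext j
      by_cases hj : j = i
      · rw [hj, h1]; rfl
      · have h4 := hD i j
        rw [h1, cr_zero_right] at h4
        exact zero_of_cr h4 ht (h2 j hj))
  refine h.trans (le_of_eq ?_)
  have hc : Fintype.card {j : Fin 3 // j ≠ i} = 2 := by
    fin_cases i <;> rfl
  rw [Fintype.card_prod, Fintype.card_fun, Fintype.card_fun, ZMod.card, Fintype.card_fin, hc,
    ← pow_add]

lemma Kc_le_two {x : Fin 3 → Fin 3 → ZMod p} {i j : Fin 3} (hx : cr (x i) (x j) ≠ 0) :
    Kc x ≤ p ^ 3 := by
  classical
  obtain ⟨t, ht⟩ : ∃ t, cr (x i) (x j) t ≠ 0 := by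
    by_contra hc
    push Not at hc
    exact hx (funext hc)
  have h := Kc_le (W := ZMod p × ZMod p × ZMod p) x
    (fun y => (cr (y i) (x j) t, cr (x i) (y i) t, cr (y j) (x j) t)) (by
      intro y z
      have e : ∀ i, (y - z) i = y i - z i := fun i => rfl
      simp only [e, cr_sub_left, cr_sub_right]
      rfl) (by
      intro D hD h0
      have h1 : cr (D i) (x j) t = 0 := congrArg Prod.fst h0
      have h2 : cr (x i) (D i) t = 0 := congrArg (fun q => q.2.1) h0
      have h3 : cr (D j) (x j) t = 0 := congrArg (fun q => q.2.2) h0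
      have hi : D i = 0 := by
        refine zero_of_key ht h1 h2 ?_
        rw [← hD i j]
        exact dt_cr _ _
      have hj : D j = 0 := by
        refine zero_of_key ht h3 ?_ ?_
        · rw [hD i j, hi, cr_zero_right]; rfl
        · have h4 : dt (x i) (cr (x j) (D j)) = - dt (x j) (cr (x i) (D j)) := by
            unfold dt cr
            simp
            ring
          rw [h4, hD i j, dt_cr, neg_zero]
      funext k
      have hk1 : cr (x i) (D k) = 0 := by rw [hD i k, hi, cr_zero_right]
      have hk2 : cr (x j) (D k) = 0 := by rw [hD j k, hj, cr_zero_right]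
      refine zero_of_key ht ?_ ?_ ?_
      · rw [cr_anti, hk2]; simp
      · rw [hk1]; rfl
      · rw [hk2]; unfold dt; simp)
  refine h.trans (le_of_eq ?_)
  rw [Fintype.card_prod, Fintype.card_prod, ZMod.card]
  ring

lemma Kc_le_three {x : Fin 3 → Fin 3 → ZMod p} (hx : dt (x 0) (cr (x 1) (x 2)) ≠ 0) :
    Kc x ≤ p := by
  classical
  have hx0 : x 0 ≠ 0 := by
    intro h
    apply hx
    rw [h]
    unfold dt
    simp
  obtain ⟨t, ht⟩ : ∃ t, x 0 t ≠ 0 := by
    by_contra hc
    push Not at hc
    exact hx0 (funext hc)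
  have h := Kc_le (W := ZMod p) x (fun y => y 0 t) (fun y z => rfl) (by
      intro D hD h0
      have hdet : ∀ i j, dt (x i) (cr (x j) (D i)) = 0 := by
        intro i j
        rw [← hD i j]
        exact dt_cr _ _
      have c0 : cr (D 0) (x 0) = 0 := by
        funext s
        have h := cr_three (x 0) (x 1) (x 2) (D 0) s
        rw [hdet, hdet, mul_zero, mul_zero, sub_zero] at h
        exact (mul_eq_zero.1 h).resolve_left hx
      have c1 : cr (D 1) (x 1) = 0 := by
        funext s
        have h := cr_three (x 1) (x 2) (x 0) (D 1) s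
        rw [hdet, hdet, mul_zero, mul_zero, sub_zero] at h
        refine (mul_eq_zero.1 h).resolve_left ?_
        have e : dt (x 1) (cr (x 2) (x 0)) = dt (x 0) (cr (x 1) (x 2)) := by
          unfold dt cr
          simp
          ring
        rw [e]
        exact hx
      have c2 : cr (D 2) (x 2) = 0 := by
        funext s
        have h := cr_three (x 2) (x 0) (x 1) (D 2) s
        rw [hdet, hdet, mul_zero, mul_zero, sub_zero] at h
        refine (mul_eq_zero.1 h).resolve_left ?_
        have e : dt (x 2) (cr (x 0) (x 1)) = dt (x 0) (cr (x 1) (x 2)) := by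
          unfold dt cr
          simp
          ring
        rw [e]
        exact hx
      have d0 : D 0 = 0 := by
        refine zero_of_cr (x := x 0) ?_ ht h0
        funext s
        rw [cr_anti, c0]
        simp
      have step : ∀ j, j ≠ 0 → cr (D j) (x j) = 0 → cr (x 0) (x j) ≠ 0 → D j = 0 := by
        intro j _ hc hn
        obtain ⟨s, hs⟩ : ∃ s, cr (x 0) (x j) s ≠ 0 := by
          by_contra hc
          push Not at hc
          exact hn (funext hc)
        refine zero_of_key hs ?_ ?_ ?_
        · rw [hc]; rfl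
        · rw [hD 0 j, d0, cr_zero_right]; rfl
        · have e : cr (x j) (D j) = 0 := by
            funext s
            rw [cr_anti, hc]
            simp
          rw [e]
          unfold dt
          simp
      have n1 : cr (x 0) (x 1) ≠ 0 := by
        intro h
        apply hx
        have e : dt (x 0) (cr (x 1) (x 2)) = dt (x 2) (cr (x 0) (x 1)) := by
          unfold dt cr
          simp
          ring
        rw [e, h]
        unfold dt
        simp
      have n2 : cr (x 0) (x 2) ≠ 0 := by
        intro h
        apply hx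
        have e : dt (x 0) (cr (x 1) (x 2)) = - dt (x 1) (cr (x 0) (x 2)) := by
          unfold dt cr
          simp
          ring
        rw [e, h]
        unfold dt
        simp
      have d1 := step 1 (by decide) c1 n1
      have d2 := step 2 (by decide) c2 n2
      funext j
      fin_cases j
      · exact d0
      · exact d1
      · exact d2)
  refine h.trans (le_of_eq ?_)
  rw [ZMod.card]

end Pool.Agent.TH140.KT
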