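import Mathlib
import Pool.Agent.TH140.KT.KBound
import Pool.Agent.TH140.KT.DSum

set_option autoImplicit false

namespace Pool.Agent.TH140.KT

open Finset Pool.Agent.H277R2.Tens

section

variable (p : ℕ) [Fact p.Prime]

open Classical in
/-- number of pairs -/
noncomputable def N2 : ℕ :=
  (univ.filter (fun q : (Fin 3 → Fin 3 → ZMod p) × (Fin 3 → Fin 3 → ZMod p) =>
    Cond q.1 q.2)).card

lemma N2_eq : N2 p = ∑ x : Fin 3 → Fin 3 → ZMod p, Kc x := by
  classical
  unfold N2 Kc
  rw [Finset.card_filter, Fintype.sum_prod_type]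
  refine Finset.sum_congr rfl fun x _ => ?_
  rw [Finset.card_filter]

lemma bias_eps2_le : bias (tpow (eps p) 2) ≤ (N2 p : ℝ) / (p : ℝ) ^ 18 := by
  classical
  rw [bias_eq_count (tpow (eps p) 2) 2]
  have hp0 : (0 : ℝ) < p := by exact_mod_cast (Fact.out : p.Prime).pos
  have hcard : (Fintype.card (Fin 3 → (Fin 2 → Fin 3) → ZMod p) : ℝ) = (p : ℝ) ^ 27 := by
    rw [Fintype.card_fun, Fintype.card_fun, Fintype.card_fun, ZMod.card, Fintype.card_fin,
      Fintype.card_fin]
    push_cast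
    rw [← pow_mul]
  set F := univ.filter (fun X : Fin 3 → (Fin 2 → Fin 3) → ZMod p =>
    ∀ i, form (tpow (eps p) 2) (Function.update X 2 (Pi.single i 1)) = 0) with hF
  have hle : F.card ≤ N2 p * p ^ 9 := by
    have h1 : F.card ≤ ((univ.filter
        (fun q : (Fin 3 → Fin 3 → ZMod p) × (Fin 3 → Fin 3 → ZMod p) => Cond q.1 q.2)) ×ˢ
        (univ : Finset (Fin 3 → Fin 3 → ZMod p))).card := by
      refine Finset.card_le_card_of_injOn (fun X => ((row (X 0), row (X 1)), row (X 2))) ?_ ?_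
      · intro X hX
        rw [mem_coe, hF, mem_filter] at hX
        rw [mem_coe, mem_product, mem_filter]
        exact ⟨⟨mem_univ _, cond_of X hX.2⟩, mem_univ _⟩
      · intro X _ Y _ h
        have e0 : X 0 = Y 0 := row_inj (congrArg (fun q => q.1.1) h)
        have e1 : X 1 = Y 1 := row_inj (congrArg (fun q => q.1.2) h)
        have e2 : X 2 = Y 2 := row_inj (congrArg (fun q => q.2) h)
        funext j
        fin_cases j
        · exact e0
        · exact e1
        · exact e2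
    refine h1.trans (le_of_eq ?_)
    rw [card_product, card_univ, Fintype.card_fun, Fintype.card_fun, ZMod.card, Fintype.card_fin,
      ← pow_mul]
    rfl
  rw [hcard, div_le_div_iff₀ (by positivity) (by positivity)]
  have h2 : (F.card : ℝ) ≤ (N2 p : ℝ) * (p : ℝ) ^ 9 := by exact_mod_cast hle
  calc (F.card : ℝ) * (p : ℝ) ^ 18 ≤ (N2 p : ℝ) * (p : ℝ) ^ 9 * (p : ℝ) ^ 18 :=
        mul_le_mul_of_nonneg_right h2 (by positivity)
    _ = _ := by ring

end

/-- the determinant -/
def dd {p : ℕ} (x : Fin 3 → Fin 3 → ZMod p) : ZMod p :=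
  x 0 0 * (x 1 1 * x 2 2 - x 1 2 * x 2 1) + x 0 1 * (x 1 2 * x 2 0 - x 1 0 * x 2 2) +
    x 0 2 * (x 1 0 * x 2 1 - x 1 1 * x 2 0)

/-- rank at most one -/
def rk {p : ℕ} (x : Fin 3 → Fin 3 → ZMod p) : Prop :=
  ∀ i j, x i 0 * x j 1 = x i 1 * x j 0 ∧ x i 0 * x j 2 = x i 2 * x j 0 ∧
    x i 1 * x j 2 = x i 2 * x j 1

instance {p : ℕ} (x : Fin 3 → Fin 3 → ZMod p) : Decidable (rk x) := by
  unfold rk
  infer_instance

lemma sum_bound_two : ∑ x : Fin 3 → Fin 3 → ZMod 2, (2 + (if dd x = 0 then 6 else 0) +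
    (if rk x then 24 else 0) + (if x = 0 then 480 else 0)) = 4768 := by
  decide +kernel

lemma rk_of {p : ℕ} [Fact p.Prime] {x : Fin 3 → Fin 3 → ZMod p}
    (h : ∀ i j, cr (x i) (x j) = 0) : rk x := by
  intro i j
  have h0 := congrFun (h i j) 0
  have h1 := congrFun (h i j) 1
  have h2 := congrFun (h i j) 2
  simp only [cr, Matrix.cons_val_zero, Matrix.cons_val_one, Matrix.cons_val, Pi.zero_apply]
    at h0 h1 h2
  refine ⟨?_, ?_, ?_⟩
  · linear_combination h2
  · linear_combination -h1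
  · linear_combination h0

lemma exists_of_not_rk {p : ℕ} [Fact p.Prime] {x : Fin 3 → Fin 3 → ZMod p} (h : ¬ rk x) :
    ∃ i j, cr (x i) (x j) ≠ 0 := by
  by_contra hc
  push Not at hc
  exact h (rk_of hc)

lemma dd_eq {p : ℕ} [Fact p.Prime] (x : Fin 3 → Fin 3 → ZMod p) :
    dt (x 0) (cr (x 1) (x 2)) = dd x := by
  unfold dt cr dd
  simp

lemma N2_two_le : N2 2 ≤ 4768 := by
  classical
  rw [N2_eq, ← sum_bound_two]
  refine Finset.sum_le_sum fun x _ => ?_
  by_cases h0 : x = 0
  · have h1 := Kc_le_univ x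
    subst h0
    have e1 : dd (0 : Fin 3 → Fin 3 → ZMod 2) = 0 := by decide
    have e2 : rk (0 : Fin 3 → Fin 3 → ZMod 2) := by
      intro i j
      simp
    rw [if_pos e1, if_pos e2, if_pos rfl]
    refine h1.trans ?_
    norm_num
  · by_cases h1 : rk x
    · have h2 := Kc_le_one h0
      have e1 : dd x = 0 := by
        obtain ⟨a1, a2, a3⟩ := h1 1 2
        unfold dd
        linear_combination x 0 0 * a3 - x 0 1 * a2 + x 0 2 * a1
      rw [if_pos e1, if_pos h1]
      omega
    · obtain ⟨i, j, hij⟩ := exists_of_not_rk h1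
      by_cases h3 : dd x = 0
      · have h2 := Kc_le_two hij
        rw [if_pos h3]
        omega
      · have h2 := Kc_le_three (x := x) (by rw [dd_eq]; exact h3)
        omega

end Pool.Agent.TH140.KT
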