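import Mathlib
import Pool.Agent.TH140.KT.NTwo

set_option autoImplicit false

namespace Pool.Agent.TH140.KT

open Finset Pool.Agent.H277R2.Tens

lemma prop_of {p : ℕ} [Fact p.Prime] {x y : Fin 3 → ZMod p} {t : Fin 3} (ht : x t ≠ 0)
    (h : x 0 * y 1 = x 1 * y 0 ∧ x 0 * y 2 = x 2 * y 0 ∧ x 1 * y 2 = x 2 * y 1) :
    y = fun s => (y t / x t) * x s := by
  obtain ⟨h1, h2, h3⟩ := h
  have key : ∀ s, x t * y s = x s * y t := by
    intro s
    fin_cases s <;> fin_cases t <;> simp only [Fin.zero_eta, Fin.mk_one, Fin.reduceFinMk] <;>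
      first
      | ring1
      | linear_combination h1
      | linear_combination h2
      | linear_combination h3
      | linear_combination -h1
      | linear_combination -h2
      | linear_combination -h3
  funext s
  have := key s
  field_simp
  linear_combination this

/-- number of matrices of rank at most one -/
lemma card_rk_le {p : ℕ} [Fact p.Prime] :
    (univ.filter (fun x : Fin 3 → Fin 3 → ZMod p => rk x)).card ≤ p ^ 3 + p ^ 4 + p ^ 5 := by
  classical
  let g1 : (Fin 3 → ZMod p) → (Fin 3 → Fin 3 → ZMod p) := fun z => ![0, 0, z]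
  let g2 : (Fin 3 → ZMod p) × ZMod p → (Fin 3 → Fin 3 → ZMod p) := fun q =>
    ![0, q.1, fun s => q.2 * q.1 s]
  let g3 : (Fin 3 → ZMod p) × ZMod p × ZMod p → (Fin 3 → Fin 3 → ZMod p) := fun q =>
    ![q.1, fun s => q.2.1 * q.1 s, fun s => q.2.2 * q.1 s]
  have hsub : (univ.filter (fun x : Fin 3 → Fin 3 → ZMod p => rk x)) ⊆
      univ.image g1 ∪ univ.image g2 ∪ univ.image g3 := by
    intro x hx
    rw [mem_filter] at hx
    have hr := hx.2
    simp only [mem_union, mem_image, mem_univ, true_and]
    by_cases h0 : x 0 = 0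
    · by_cases h1 : x 1 = 0
      · left; left
        refine ⟨x 2, ?_⟩
        funext j
        fin_cases j
        · exact h0.symm
        · exact h1.symm
        · rfl
      · left; right
        obtain ⟨t, ht⟩ : ∃ t, x 1 t ≠ 0 := by
          by_contra hc
          push Not at hc
          exact h1 (funext hc)
        refine ⟨(x 1, x 2 t / x 1 t), ?_⟩
        funext j
        fin_cases j
        · exact h0.symm
        · rfl
        · exact (prop_of ht (hr 1 2)).symm
    · right
      obtain ⟨t, ht⟩ : ∃ t, x 0 t ≠ 0 := by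
        by_contra hc
        push Not at hc
        exact h0 (funext hc)
      refine ⟨(x 0, x 1 t / x 0 t, x 2 t / x 0 t), ?_⟩
      funext j
      fin_cases j
      · rfl
      · exact (prop_of ht (hr 0 1)).symm
      · exact (prop_of ht (hr 0 2)).symm
  refine (Finset.card_le_card hsub).trans ?_
  refine (Finset.card_union_le _ _).trans ?_
  have hc0 : Fintype.card (Fin 3 → ZMod p) = p ^ 3 := by
    rw [Fintype.card_fun, ZMod.card, Fintype.card_fin]
  have c1 : (univ.image g1).card ≤ p ^ 3 := by
    refine Finset.card_image_le.trans ?_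
    rw [card_univ, hc0]
  have c2 : (univ.image g2).card ≤ p ^ 4 := by
    refine Finset.card_image_le.trans ?_
    rw [card_univ, Fintype.card_prod, hc0, ZMod.card, ← pow_succ]
  have c3 : (univ.image g3).card ≤ p ^ 5 := by
    refine Finset.card_image_le.trans ?_
    rw [card_univ, Fintype.card_prod, Fintype.card_prod, hc0, ZMod.card]
    refine le_of_eq ?_
    ring
  have c4 := Finset.card_union_le (univ.image g1) (univ.image g2)
  omega

lemma sum_shape {V : Type*} [Fintype V] [DecidableEq V] [Zero V] (P : V → Prop)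
    [DecidablePred P] (a b c : ℕ) :
    ∑ x : V, (a + (if P x then b else 0) + (if x = 0 then c else 0)) =
      Fintype.card V * a + (univ.filter P).card * b + c := by
  rw [Finset.sum_add_distrib, Finset.sum_add_distrib, Finset.sum_const, card_univ, smul_eq_mul,
    ← Finset.sum_filter, Finset.sum_const, smul_eq_mul, Finset.sum_ite_eq', if_pos (mem_univ _)]

lemma N2_three_le : N2 3 ≤ 626697 := by
  classical
  rw [N2_eq]
  have hb : ∀ x : Fin 3 → Fin 3 → ZMod 3, Kc x ≤ 27 + (if rk x then 216 else 0) +
      (if x = 0 then 19440 else 0) := by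
    intro x
    by_cases h0 : x = 0
    · have h1 := Kc_le_univ x
      subst h0
      have e2 : rk (0 : Fin 3 → Fin 3 → ZMod 3) := by
        intro i j
        simp
      rw [if_pos e2, if_pos rfl]
      refine h1.trans ?_
      norm_num
    · by_cases h1 : rk x
      · have h2 := Kc_le_one h0
        rw [if_pos h1]
        omega
      · obtain ⟨i, j, hij⟩ := exists_of_not_rk h1
        have h2 := Kc_le_two hij
        omega
  have hs := sum_shape (fun x : Fin 3 → Fin 3 → ZMod 3 => rk x) 27 216 19440
  have h := card_rk_le (p := 3)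
  have h2 := Finset.sum_le_sum fun x (_ : x ∈ (univ : Finset (Fin 3 → Fin 3 → ZMod 3))) => hb x
  rw [hs, Fintype.card_fun, Fintype.card_fun, ZMod.card, Fintype.card_fin] at h2
  have h3 : (3 : ℕ) ^ 3 + 3 ^ 4 + 3 ^ 5 = 351 := by norm_num
  have h4 : ((3 : ℕ) ^ 3) ^ 3 = 19683 := by norm_num
  rw [h3] at h
  rw [h4] at h2
  refine h2.trans ?_
  generalize (univ.filter (fun x : Fin 3 → Fin 3 → ZMod 3 => rk x)).card = c at h
  omega

end Pool.Agent.TH140.KT
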