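import Mathlib
import Pool.Agent.TH140.KT.NThree

set_option autoImplicit false

namespace Pool.Agent.TH140.KT

open Finset Pool.Agent.H277R2.Tens

section

variable {p : ℕ} [Fact p.Prime]

/-- Many zeros. -/
lemma bias_eps_ge :
    ((p : ℝ) ^ 3 * (p ^ 3 + (p ^ 3 - 1) * p)) / (p : ℝ) ^ 9 ≤ bias (eps p) := by
  classical
  rw [bias_eq_count (eps p) 2]
  have hcard : (Fintype.card (Fin 3 → Fin 3 → ZMod p) : ℝ) = (p : ℝ) ^ 9 := by
    rw [Fintype.card_fun, Fintype.card_fun, ZMod.card, Fintype.card_fin]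
    push_cast
    rw [← pow_mul]
  rw [hcard]
  refine div_le_div_of_nonneg_right ?_ (by positivity)
  set F := univ.filter (fun X : Fin 3 → Fin 3 → ZMod p =>
    ∀ i, form (eps p) (Function.update X 2 (Pi.single i 1)) = 0) with hF
  let g1 : (Fin 3 → ZMod p) × (Fin 3 → ZMod p) → (Fin 3 → Fin 3 → ZMod p) := fun q =>
    ![0, q.1, q.2]
  let g2 : (Fin 3 → ZMod p) × ZMod p × (Fin 3 → ZMod p) → (Fin 3 → Fin 3 → ZMod p) := fun q =>
    ![q.1, fun a => q.2.1 * q.1 a, q.2.2]
  set A1 := (univ : Finset ((Fin 3 → ZMod p) × (Fin 3 → ZMod p))).image g1 with hA1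
  set A2 := ((univ : Finset (Fin 3 → ZMod p)).erase 0 ×ˢ
    (univ : Finset (ZMod p × (Fin 3 → ZMod p)))).image g2 with hA2
  have hc0 : Fintype.card (Fin 3 → ZMod p) = p ^ 3 := by
    rw [Fintype.card_fun, ZMod.card, Fintype.card_fin]
  have c1 : A1.card = p ^ 3 * p ^ 3 := by
    rw [hA1, Finset.card_image_of_injective, card_univ, Fintype.card_prod, hc0]
    rintro ⟨y, z⟩ ⟨y', z'⟩ h
    have e1 := congrFun h 1
    have e2 := congrFun h 2
    simp only [g1, Matrix.cons_val_one, Matrix.cons_val_zero, Matrix.cons_val] at e1 e2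
    rw [e1, e2]
  have c2 : A2.card = (p ^ 3 - 1) * (p * p ^ 3) := by
    rw [hA2, Finset.card_image_of_injOn, card_product, card_erase_of_mem (mem_univ _), card_univ,
      card_univ, Fintype.card_prod, hc0, ZMod.card]
    rintro ⟨x, l, z⟩ hx ⟨x', l', z'⟩ _ h
    have e0 := congrFun h 0
    have e1 := congrFun h 1
    have e2 := congrFun h 2
    simp only [g2, Matrix.cons_val_one, Matrix.cons_val_zero, Matrix.cons_val] at e0 e1 e2
    subst e0
    rw [mem_coe, mem_product, mem_erase] at hx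
    obtain ⟨a, ha⟩ : ∃ a, x a ≠ 0 := by
      by_contra hc
      push Not at hc
      exact hx.1.1 (funext hc)
    have h3 := congrFun e1 a
    have h4 : l = l' := mul_right_cancel₀ ha h3
    rw [h4, e2]
  have hdisj : Disjoint A1 A2 := by
    rw [Finset.disjoint_left]
    intro X h1 h2
    rw [hA1, mem_image] at h1
    rw [hA2, mem_image] at h2
    obtain ⟨⟨y, z⟩, -, rfl⟩ := h1
    obtain ⟨⟨x, l, z'⟩, hx, h⟩ := h2
    have e0 := congrFun h 0
    simp only [g1, g2, Matrix.cons_val_zero] at e0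
    rw [mem_product, mem_erase] at hx
    exact hx.1.1 e0
  have hsub : A1 ∪ A2 ⊆ F := by
    intro X hX
    rw [mem_union] at hX
    rw [hF, mem_filter]
    refine ⟨mem_univ _, ?_⟩
    intro i
    rw [form_eps]
    rcases hX with hX | hX
    · rw [hA1, mem_image] at hX
      obtain ⟨⟨y, z⟩, -, rfl⟩ := hX
      simp only [g1, Matrix.cons_val_zero, Matrix.cons_val_one]
      rw [cr_anti, cr_zero_right]
      simp
    · rw [hA2, mem_image] at hX
      obtain ⟨⟨x, l, z⟩, -, rfl⟩ := hX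
      simp only [g2, Matrix.cons_val_zero, Matrix.cons_val_one]
      unfold cr
      fin_cases i <;> simp <;> ring
  have hle := Finset.card_le_card hsub
  rw [Finset.card_union_of_disjoint hdisj, c1, c2] at hle
  have h1 : 1 ≤ p ^ 3 := Nat.one_le_pow _ _ (Fact.out : p.Prime).pos
  have hle' : (p : ℝ) ^ 3 * (p : ℝ) ^ 3 + ((p : ℝ) ^ 3 - 1) * (p * (p : ℝ) ^ 3) ≤ (F.card : ℝ) := by
    have h2 : ((p ^ 3 * p ^ 3 + (p ^ 3 - 1) * (p * p ^ 3) : ℕ) : ℝ) ≤ (F.card : ℝ) := by
      exact_mod_cast hle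
    push_cast [Nat.cast_sub h1] at h2
    exact h2
  calc (p : ℝ) ^ 3 * (p ^ 3 + (p ^ 3 - 1) * p) =
      (p : ℝ) ^ 3 * (p : ℝ) ^ 3 + ((p : ℝ) ^ 3 - 1) * (p * (p : ℝ) ^ 3) := by ring
    _ ≤ _ := hle'

lemma bias_zero {d : ℕ} {κ : Type*} [Fintype κ] [DecidableEq κ] :
    bias (fun _ => 0 : Tensor (ZMod p) (d + 1) κ) = 1 := by
  have h : ∀ X : Fin (d + 1) → κ → ZMod p,
      form (fun _ => 0 : Tensor (ZMod p) (d + 1) κ) X = 0 := by
    intro X
    unfold form
    simp
  unfold bias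
  simp only [h, AddChar.map_zero_eq_one, Finset.sum_const, card_univ, nsmul_eq_mul, mul_one]
  rw [div_self]
  · rfl
  · exact_mod_cast Fintype.card_ne_zero

/-- `a` copies of the tensor and `b` zero copies -/
def fam (p : ℕ) [Fact p.Prime] (a b : ℕ) : (Fin a ⊕ Fin b) → Tensor (ZMod p) 3 (Fin 3) :=
  Sum.elim (fun _ => eps p) (fun _ _ => 0)

lemma bias_fam (a b : ℕ) : bias (dsum (fam p a b)) = bias (eps p) ^ a := by
  rw [bias_dsum, Fintype.prod_sum_type]
  unfold fam
  simp only [Sum.elim_inl, Sum.elim_inr]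
  rw [Finset.prod_const, Finset.prod_const, bias_zero, one_pow, mul_one, card_univ,
    Fintype.card_fin]

lemma bias_fam2 (a b : ℕ) :
    bias (tpow (dsum (fam p a b)) 2) ≤ bias (tpow (eps p) 2) ^ (a ^ 2) := by
  classical
  let φ : (Fin 2 → Fin a) × (Fin 2 → Fin 3) → (Fin 2 → (Fin a ⊕ Fin b) × Fin 3) := fun q k =>
    (Sum.inl (q.1 k), q.2 k)
  have hφ : Function.Injective φ := by
    intro q q' h
    refine Prod.ext (funext fun k => ?_) (funext fun k => ?_)
    · exact Sum.inl_injective (congrArg Prod.fst (congrFun h k))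
    · exact congrArg Prod.snd (congrFun h k)
  have h1 := bias_le_restrict (tpow (dsum (fam p a b)) 2) (fun _ : Fin 3 => φ) (fun _ => hφ)
  have h2 : (fun I : Fin 3 → (Fin 2 → Fin a) × (Fin 2 → Fin 3) =>
      tpow (dsum (fam p a b)) 2 (fun j => φ (I j))) =
      dsum (fun _ : Fin 2 → Fin a => tpow (eps p) 2) := by
    funext I
    have h3 := congrFun (tpow_idT (F := ZMod p) (d := 3) (ι := Fin a) 2) (fun j => (I j).1)
    have h4 : ∀ u : Fin 3 → Fin a, (idT (fun j => (Sum.inl (u j) : Fin a ⊕ Fin b)) : ZMod p) =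
        idT u := by
      intro u
      unfold idT
      congr 1
      apply propext
      constructor
      · intro h j k
        exact Sum.inl_injective (h j k)
      · intro h j k
        show (Sum.inl (u j) : Fin a ⊕ Fin b) = Sum.inl (u k)
        rw [h j k]
    unfold dsum
    rw [← h3]
    unfold tpow
    rw [← Finset.prod_mul_distrib]
    refine Finset.prod_congr rfl fun k _ => ?_
    show idT (fun j => (Sum.inl ((I j).1 k) : Fin a ⊕ Fin b)) * _ = _
    rw [h4 (fun j => (I j).1 k)]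
    rfl
  rw [h2, bias_dsum, Finset.prod_const, card_univ, Fintype.card_fun, Fintype.card_fin,
    Fintype.card_fin] at h1
  exact h1

theorem small_key (a b : ℕ)
    (h1 : ((Zc p 2 : ℝ) / (p : ℝ) ^ 2) ^ (3 * (a + b)) < bias (eps p) ^ a)
    (h2 : bias (tpow (eps p) 2) ^ (a ^ 2) ≤ ((Zc p 2 : ℝ) / (p : ℝ) ^ 2) ^ ((3 * (a + b)) ^ 2)) :
    ∃ (n : ℕ) (A : Tensor (ZMod p) 3 (Fin n)),
      arank A < arank (idT : Tensor (ZMod p) 3 (Fin n)) ∧
      arank (tpow (idT : Tensor (ZMod p) 3 (Fin n)) 2) ≤ arank (tpow A 2) := by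
  let κ := (Fin a ⊕ Fin b) × Fin 3
  have hκ : Fintype.card κ = 3 * (a + b) := by
    show Fintype.card ((Fin a ⊕ Fin b) × Fin 3) = _
    rw [Fintype.card_prod, Fintype.card_sum, Fintype.card_fin, Fintype.card_fin, Fintype.card_fin,
      mul_comm]
  let e : Fin (Fintype.card κ) ≃ κ := (Fintype.equivFin κ).symm
  refine ⟨Fintype.card κ, reindex e (dsum (fam p a b)), ?_, ?_⟩
  · rw [arank_reindex, ← idT_reindex e, arank_reindex]
    have h3 : bias (idT : Tensor (ZMod p) 3 κ) < bias (dsum (fam p a b)) := by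
      rw [bias_fam, bias_idT, hκ]
      exact h1
    unfold arank
    have := Real.logb_lt_logb (one_lt_p (p := p)) (bias_pos (d := 1) idT) h3
    linarith
  · rw [tpow_reindex, arank_reindex, ← idT_reindex e, tpow_reindex, arank_reindex]
    have h3 : bias (tpow (dsum (fam p a b)) 2) ≤ bias (tpow (idT : Tensor (ZMod p) 3 κ) 2) := by
      refine (bias_fam2 a b).trans (h2.trans (le_of_eq ?_))
      rw [tpow_idT, bias_idT, Fintype.card_fun, Fintype.card_fin, hκ]
    unfold arank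
    have := Real.logb_le_logb_of_le (one_lt_p (p := p)) (bias_pos (d := 1) _) h3
    linarith

end

lemma Zc_two : Zc 2 2 = 3 := by
  have h : Zc 2 2 = (univ.filter (fun y : Fin 2 → ZMod 2 => ∏ j, y j = 0)).card := by
    unfold Zc
    congr!
  rw [h]
  decide

lemma Zc_three : Zc 3 2 = 5 := by
  have h : Zc 3 2 = (univ.filter (fun y : Fin 2 → ZMod 3 => ∏ j, y j = 0)).card := by
    unfold Zc
    congr!
  rw [h]
  decide

theorem case_two : ∃ (n : ℕ) (A : Tensor (ZMod 2) 3 (Fin n)),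
      arank A < arank (idT : Tensor (ZMod 2) 3 (Fin n)) ∧
      arank (tpow (idT : Tensor (ZMod 2) 3 (Fin n)) 2) ≤ arank (tpow A 2) := by
  refine small_key 21 5 ?_ ?_
  · have h := bias_eps_ge (p := 2)
    rw [Zc_two]
    refine lt_of_lt_of_le ?_ (pow_le_pow_left₀ (by norm_num) h 21)
    norm_num
  · have h := bias_eps2_le 2
    have h0 : 0 ≤ bias (tpow (eps 2) 2) := bias_nonneg (d := 2) _
    have hN : (N2 2 : ℝ) ≤ 4768 := by exact_mod_cast N2_two_le
    have h1 : bias (tpow (eps 2) 2) ≤ 4768 / (2 : ℝ) ^ 18 := by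
      refine h.trans ?_
      push_cast
      exact div_le_div_of_nonneg_right hN (by norm_num)
    rw [Zc_two]
    have h2 : (4768 / (2 : ℝ) ^ 18) ^ 49 ≤ ((3 / 4 : ℝ) ^ 26) ^ 26 := by norm_num
    calc bias (tpow (eps 2) 2) ^ (21 ^ 2) ≤ (4768 / (2 : ℝ) ^ 18) ^ (21 ^ 2) :=
          pow_le_pow_left₀ h0 h1 _
      _ = ((4768 / (2 : ℝ) ^ 18) ^ 49) ^ 9 := by
        rw [← pow_mul]
        congr 1
      _ ≤ (((3 / 4 : ℝ) ^ 26) ^ 26) ^ 9 := pow_le_pow_left₀ (by positivity) h2 9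
      _ = _ := by
        rw [← pow_mul, ← pow_mul]
        norm_num

theorem case_three : ∃ (n : ℕ) (A : Tensor (ZMod 3) 3 (Fin n)),
      arank A < arank (idT : Tensor (ZMod 3) 3 (Fin n)) ∧
      arank (tpow (idT : Tensor (ZMod 3) 3 (Fin n)) 2) ≤ arank (tpow A 2) := by
  refine small_key 10 1 ?_ ?_
  · have h := bias_eps_ge (p := 3)
    rw [Zc_three]
    refine lt_of_lt_of_le ?_ (pow_le_pow_left₀ (by norm_num) h 10)
    norm_num
  · have h := bias_eps2_le 3
    have h0 : 0 ≤ bias (tpow (eps 3) 2) := bias_nonneg (d := 2) _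
    have hN : (N2 3 : ℝ) ≤ 626697 := by exact_mod_cast N2_three_le
    have h1 : bias (tpow (eps 3) 2) ≤ 626697 / (3 : ℝ) ^ 18 := by
      refine h.trans ?_
      push_cast
      exact div_le_div_of_nonneg_right hN (by norm_num)
    rw [Zc_three]
    have h2 : (626697 / (3 : ℝ) ^ 18) ^ 100 ≤ ((5 / 9 : ℝ) ^ 33) ^ 33 := by norm_num
    calc bias (tpow (eps 3) 2) ^ (10 ^ 2) ≤ (626697 / (3 : ℝ) ^ 18) ^ (10 ^ 2) :=
          pow_le_pow_left₀ h0 h1 _
      _ = (626697 / (3 : ℝ) ^ 18) ^ 100 := by norm_num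
      _ ≤ ((5 / 9 : ℝ) ^ 33) ^ 33 := h2
      _ = _ := by
        rw [← pow_mul]
        norm_num

end Pool.Agent.TH140.KT
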